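import Pool.Agent.FS77.Defs

/-!
Gram matrices.
-/

namespace Pool.Agent.NL18

open Matrix

/-- The Gram matrix of the vectors `z 0, …, z (r - 1)` for the bilinear form with matrix `F`:
its entries are the values `(z i)ᵀ F (z j)`. -/
def gram {K κ : Type*} [Field K] [Fintype κ] (F : Matrix κ κ K) {r : ℕ} (z : Fin r → κ → K) :
    Matrix (Fin r) (Fin r) K :=
  Matrix.of fun i j => z i ⬝ᵥ (F *ᵥ z j)

end Pool.Agent.NL18
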