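import Pool.Agent.NL18.Sl2

/-!
Existence of adapted bases: strings of eigenvectors.
-/

namespace Pool.Agent.NL18

open Module

section
universe u v
variable {K : Type u} [Field K] {V : Type v} [AddCommGroup V] [Module K V]

/-- the operator form of an adapted basis -/
def Adp (Ψ N : Module.End K V) : Prop :=
  ∃ (ι : Type) (_ : Fintype ι) (_ : DecidableEq ι) (B : Basis ι K V) (s : ι → ℤ) (α : ι → K)
    (H E : Module.End K V), (∀ i, H (B i) = (s i : K) • B i) ∧ (∀ i, Ψ (B i) = α i • B i) ∧
    (∀ x, E (N x) - N (E x) = H x) ∧ (∀ x, H (N x) = N (H x) - (2 : K) • N x) ∧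
    (∀ x, H (E x) = E (H x) + (2 : K) • E x)

variable {Ψ N : Module.End K V}

theorem comm_pow (hc : ∀ x, N (Ψ x) = Ψ (N x)) (j : ℕ) :
    ∀ x, (N ^ j) (Ψ x) = Ψ ((N ^ j) x) := by
  induction j with
  | zero => intro x; simp
  | succ j ih =>
    intro x
    rw [pow_succ', Module.End.mul_apply, Module.End.mul_apply, ih, hc]

/-- existence of the functional -/
theorem exists_fun [FiniteDimensional K V] (hs : Ψ.IsSemisimple) (γ : K) (u : V) (hu : u ≠ 0)
    (hγ : Ψ u = γ • u) : ∃ l : V →ₗ[K] K, l u = 1 ∧ ∀ x, l (Ψ x) = γ * l x := by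
  have h1 : u ∉ LinearMap.range (Ψ - γ • (1 : Module.End K V)) := by
    rintro ⟨w, hw⟩
    have h2 : w ∈ Ψ.genEigenspace γ (2 : ℕ) := by
      rw [Module.End.mem_genEigenspace_nat, LinearMap.mem_ker, pow_two, Module.End.mul_apply, hw]
      simp only [LinearMap.sub_apply, LinearMap.smul_apply, Module.End.one_apply]
      rw [hγ, sub_self]
    have h3 : w ∈ Ψ.maxGenEigenspace γ := Ψ.genEigenspace_le_maximal γ 2 h2
    rw [hs.isFinitelySemisimple.maxGenEigenspace_eq_eigenspace,
      Module.End.mem_eigenspace_iff] at h3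
    apply hu
    rw [← hw]
    simp only [LinearMap.sub_apply, LinearMap.smul_apply, Module.End.one_apply]
    rw [h3, sub_self]
  obtain ⟨f, hf, hf2⟩ := Submodule.exists_le_ker_of_notMem h1
  refine ⟨(f u)⁻¹ • f, ?_, ?_⟩
  · simp [hf]
  · intro x
    have h4 : f ((Ψ - γ • (1 : Module.End K V)) x) = 0 := by
      have := hf2 (LinearMap.mem_range_self (Ψ - γ • (1 : Module.End K V)) x)
      simpa using this
    simp only [LinearMap.sub_apply, LinearMap.smul_apply, Module.End.one_apply, map_sub,
      map_smul, smul_eq_mul] at h4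
    simp only [LinearMap.smul_apply, smul_eq_mul]
    rw [sub_eq_zero.mp h4]
    ring

theorem exists_fun2 [FiniteDimensional K V] (hs : Ψ.IsSemisimple)
    (hc : ∀ x, N (Ψ x) = Ψ (N x)) (β : K) (v : V) (hβ : Ψ v = β • v) (m : ℕ)
    (hv : (N ^ m) v ≠ 0) (hbig : ∀ j, m < j → N ^ j = 0) :
    ∃ l : V →ₗ[K] K, (∀ x, l (Ψ x) = β * l x) ∧
      ∀ j : ℕ, l ((N ^ j) v) = if j = m then 1 else 0 := by
  have heig : Ψ ((N ^ m) v) = β • (N ^ m) v := by
    rw [← comm_pow hc, hβ, map_smul]
  have key : ∀ t : ℕ, ∃ l : V →ₗ[K] K, (∀ x, l (Ψ x) = β * l x) ∧ l ((N ^ m) v) = 1 ∧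
      ∀ j : ℕ, j < m → m ≤ j + t → l ((N ^ j) v) = 0 := by
    intro t
    induction t with
    | zero =>
      obtain ⟨l, h1, h2⟩ := exists_fun hs β ((N ^ m) v) hv heig
      exact ⟨l, h2, h1, fun j h3 h4 => by omega⟩
    | succ t ih =>
      obtain ⟨l, h1, h2, h3⟩ := ih
      by_cases ht : m ≤ t
      · exact ⟨l, h1, h2, fun j h4 _ => h3 j h4 (by omega)⟩
      · refine ⟨l - (l ((N ^ (m - (t + 1))) v)) • (l ∘ₗ (N ^ (t + 1))), ?_, ?_, ?_⟩
        · intro x
          simp only [LinearMap.sub_apply, LinearMap.smul_apply, LinearMap.comp_apply, smul_eq_mul]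
          rw [comm_pow hc, h1, h1]
          ring
        · simp only [LinearMap.sub_apply, LinearMap.smul_apply, LinearMap.comp_apply, smul_eq_mul]
          rw [← Module.End.mul_apply, ← pow_add, hbig (t + 1 + m) (by omega), h2]
          simp
        · intro j h4 h5
          simp only [LinearMap.sub_apply, LinearMap.smul_apply, LinearMap.comp_apply, smul_eq_mul]
          rw [← Module.End.mul_apply, ← pow_add]
          by_cases h6 : m ≤ j + t
          · rw [hbig (t + 1 + j) (by omega), h3 j h4 h6]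
            simp
          · have h7 : m - (t + 1) = j := by omega
            have h8 : t + 1 + j = m := by omega
            rw [h7, h8, h2, mul_one, sub_self]
  obtain ⟨l, h1, h2, h3⟩ := key m
  refine ⟨l, h1, fun j => ?_⟩
  split_ifs with hj
  · rw [hj, h2]
  · rcases lt_or_gt_of_ne hj with h | h
    · exact h3 j h (by omega)
    · rw [hbig j h, LinearMap.zero_apply, map_zero]

theorem exists_eig [IsAlgClosed K] [FiniteDimensional K V] (hs : Ψ.IsSemisimple) (T : Module.End K V)
    (hT : T ≠ 0) : ∃ (β : K) (v : V), Ψ v = β • v ∧ T v ≠ 0 := by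
  by_contra hcon
  push Not at hcon
  apply hT
  have h1 : (⊤ : Submodule K V) ≤ LinearMap.ker T := by
    rw [← Module.End.iSup_maxGenEigenspace_eq_top Ψ]
    apply iSup_le
    intro μ x hx
    rw [hs.isFinitelySemisimple.maxGenEigenspace_eq_eigenspace,
      Module.End.mem_eigenspace_iff] at hx
    exact hcon μ x hx
  exact LinearMap.ker_eq_top.mp (top_le_iff.mp h1)

theorem adp_exists [IsAlgClosed K] (n : ℕ) : ∀ (V : Type v) [AddCommGroup V] [Module K V]
    [FiniteDimensional K V]
    (Ψ N : Module.End K V), finrank K V = n → Ψ.IsSemisimple →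
    IsNilpotent N → (∀ x, N (Ψ x) = Ψ (N x)) →
    Adp Ψ N := by
  induction n using Nat.strong_induction_on with
  | _ n ih =>
  intro V _ _ _ Ψ N hn hs hN hc
  rcases subsingleton_or_nontrivial V with hV | hV
  · refine ⟨Empty, inferInstance, inferInstance, Basis.empty V, Empty.elim, Empty.elim, 0, 0,
      fun i => i.elim, fun i => i.elim, fun x => Subsingleton.elim _ _,
      fun x => Subsingleton.elim _ _, fun x => Subsingleton.elim _ _⟩
  -- the index of nilpotency
  classical
  have hex : ∃ k, N ^ k = 0 := hN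
  obtain ⟨m, hm1, hm2⟩ : ∃ m : ℕ, N ^ (m + 1) = 0 ∧ N ^ m ≠ 0 := by
    have h0 : Nat.find hex ≠ 0 := by
      intro h
      have := Nat.find_spec hex
      rw [h, pow_zero] at this
      exact one_ne_zero this
    obtain ⟨m, hm⟩ := Nat.exists_eq_succ_of_ne_zero h0
    refine ⟨m, ?_, ?_⟩
    · have := Nat.find_spec hex
      rwa [hm] at this
    · exact Nat.find_min hex (by omega)
  have hbig : ∀ j, m < j → N ^ j = 0 := by
    intro j hj
    obtain ⟨i, rfl⟩ : ∃ i, j = m + 1 + i := ⟨j - (m + 1), by omega⟩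
    rw [pow_add, hm1, zero_mul]
  obtain ⟨β, v, hβ, hv⟩ := exists_eig hs (N ^ m) hm2
  have hv0 : v ≠ 0 := by
    intro h
    rw [h, map_zero] at hv
    exact hv rfl
  have heig : ∀ l : ℕ, Ψ ((N ^ l) v) = β • (N ^ l) v := by
    intro l
    rw [← comm_pow hc, hβ, map_smul]
  obtain ⟨l, hl2, hlj⟩ := exists_fun2 hs hc β v hβ m hv hbig
  -- the complement
  let W : Submodule K V := ⨅ j : ℕ, LinearMap.ker (l ∘ₗ (N ^ j))
  have hW : ∀ x, x ∈ W ↔ ∀ j : ℕ, l ((N ^ j) x) = 0 := by
    intro x
    simp only [W, Submodule.mem_iInf, LinearMap.mem_ker, LinearMap.comp_apply]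
  have hWN : ∀ x ∈ W, N x ∈ W := by
    intro x hx
    rw [hW] at hx ⊢
    intro j
    have := hx (j + 1)
    rwa [pow_succ, Module.End.mul_apply] at this
  have hWΨ : ∀ x ∈ W, Ψ x ∈ W := by
    intro x hx
    rw [hW] at hx ⊢
    intro j
    rw [comm_pow hc, hl2, hx j, mul_zero]
  have hjv : ∀ i j : Fin (m + 1), l ((N ^ (m - (j : ℕ))) ((N ^ (i : ℕ)) v))
      = if i = j then 1 else 0 := by
    intro i j
    rw [← Module.End.mul_apply, ← pow_add, hlj]
    by_cases hij : i = j
    · rw [if_pos hij, if_pos]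
      have := j.2
      rw [hij]
      omega
    · rw [if_neg hij, if_neg]
      intro h
      apply hij
      apply Fin.ext
      have := j.2
      omega
  let P : V →ₗ[K] V := ∑ j : Fin (m + 1), (l ∘ₗ N ^ (m - (j : ℕ))).smulRight ((N ^ (j : ℕ)) v)
  have hP : ∀ x, P x = ∑ j : Fin (m + 1), l ((N ^ (m - (j : ℕ))) x) • (N ^ (j : ℕ)) v := by
    intro x
    simp only [P, LinearMap.sum_apply, LinearMap.smulRight_apply, LinearMap.comp_apply]
  have hPW : ∀ x, x - P x ∈ W := by
    intro x
    rw [hW]
    intro j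
    by_cases hj : j < m + 1
    · have h1 : l ((N ^ j) (P x)) = l ((N ^ j) x) := by
        rw [hP, map_sum, map_sum]
        have h2 : ∀ i : Fin (m + 1), l ((N ^ j) (l ((N ^ (m - (i : ℕ))) x) • (N ^ (i : ℕ)) v))
            = if i = (⟨m - j, by omega⟩ : Fin (m + 1)) then l ((N ^ (m - (i : ℕ))) x) else 0 := by
          intro i
          rw [map_smul, map_smul, smul_eq_mul]
          have h3 := hjv i ⟨m - j, by omega⟩
          have h4 : m - (m - j) = j := by omega
          simp only [h4] at h3
          rw [h3]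
          split_ifs <;> simp
        rw [Finset.sum_congr rfl fun i _ => h2 i, Finset.sum_ite_eq', if_pos (Finset.mem_univ _)]
        have h4 : m - (m - j) = j := by omega
        simp only [h4]
      rw [map_sub, map_sub, h1, sub_self]
    · rw [hbig j (by omega), LinearMap.zero_apply, map_zero]
  let f : V →ₗ[K] (Fin (m + 1) → K) × W :=
    (LinearMap.pi fun j : Fin (m + 1) => l ∘ₗ N ^ (m - (j : ℕ))).prod
      ((LinearMap.id - P).codRestrict W hPW)
  let g : (Fin (m + 1) → K) × W →ₗ[K] V :=
    ((∑ j : Fin (m + 1), (LinearMap.proj j).smulRight ((N ^ (j : ℕ)) v) :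
      (Fin (m + 1) → K) →ₗ[K] V)).coprod W.subtype
  have hg : ∀ c w, g (c, w) = (∑ j : Fin (m + 1), c j • (N ^ (j : ℕ)) v) + w := by
    intro c w
    simp only [g, LinearMap.coprod_apply, LinearMap.sum_apply, LinearMap.smulRight_apply,
      LinearMap.proj_apply, Submodule.subtype_apply]
  have hf : ∀ x, f x = (fun j : Fin (m + 1) => l ((N ^ (m - (j : ℕ))) x), ⟨x - P x, hPW x⟩) := by
    intro x
    rfl
  have hgf : ∀ x, g (f x) = x := by
    intro x
    rw [hf, hg, ← hP]
    simp
  have hfg : ∀ y, f (g y) = y := by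
    rintro ⟨c, w⟩
    have h1 : ∀ j : Fin (m + 1), l ((N ^ (m - (j : ℕ))) (g (c, w))) = c j := by
      intro j
      rw [hg, map_add, map_add, map_sum, map_sum, (hW w).mp w.2, add_zero]
      have h2 : ∀ i : Fin (m + 1), l ((N ^ (m - (j : ℕ))) (c i • (N ^ (i : ℕ)) v))
          = if i = j then c i else 0 := by
        intro i
        rw [map_smul, map_smul, smul_eq_mul, hjv i j]
        split_ifs <;> simp
      rw [Finset.sum_congr rfl fun i _ => h2 i, Finset.sum_ite_eq', if_pos (Finset.mem_univ _)]
    rw [hf]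
    apply Prod.ext
    · funext j
      exact h1 j
    · apply Subtype.ext
      simp only
      rw [hP]
      simp only [h1]
      rw [hg]
      simp
  let e : V ≃ₗ[K] (Fin (m + 1) → K) × W := LinearEquiv.ofLinear f g
    (LinearMap.ext hfg) (LinearMap.ext hgf)
  have hdim : finrank K V = (m + 1) + finrank K W := by
    rw [e.finrank_eq, Module.finrank_prod, Module.finrank_fin_fun]
  obtain ⟨ι, i1, i2, B, s, α, H, E, hB1, hB2, hE1, hE2, hE3⟩ :=
    ih (finrank K W) (by omega) W (Ψ.restrict hWΨ) (N.restrict hWN) rfl (hs.restrict hWΨ)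
      (by
        refine ⟨m + 1, ?_⟩
        apply LinearMap.ext
        intro x
        apply Subtype.ext
        have : ∀ (k : ℕ) (x : W), (((N.restrict hWN) ^ k) x : V) = (N ^ k) (x : V) := by
          intro k
          induction k with
          | zero => intro x; rfl
          | succ k ihk =>
            intro x
            rw [pow_succ', pow_succ', Module.End.mul_apply, Module.End.mul_apply, ← ihk]
            rfl
        rw [this, hm1]
        rfl)
      (by
        intro x
        apply Subtype.ext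
        exact hc x)
  let B' : Basis (Fin (m + 1) ⊕ ι) K V := ((Pi.basisFun K (Fin (m + 1))).prod B).map e.symm
  have hBl : ∀ j : Fin (m + 1), B' (Sum.inl j) = (N ^ (j : ℕ)) v := by
    intro j
    simp only [B', Basis.map_apply]
    have : e.symm = (LinearEquiv.ofLinear g f (LinearMap.ext hgf) (LinearMap.ext hfg)) := rfl
    rw [this, LinearEquiv.ofLinear_apply]
    have h2 : ((Pi.basisFun K (Fin (m + 1))).prod B) (Sum.inl j) = (Pi.single j 1, 0) := by
      apply Prod.ext
      · simp
      · simp
    rw [h2, hg]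
    simp [Pi.single_apply]
  have hBr : ∀ i : ι, B' (Sum.inr i) = (B i : V) := by
    intro i
    simp only [B', Basis.map_apply]
    have : e.symm = (LinearEquiv.ofLinear g f (LinearMap.ext hgf) (LinearMap.ext hfg)) := rfl
    rw [this, LinearEquiv.ofLinear_apply]
    have h2 : ((Pi.basisFun K (Fin (m + 1))).prod B) (Sum.inr i) = (0, B i) := by
      apply Prod.ext
      · simp
      · simp
    rw [h2, hg]
    simp
  let H' : Module.End K V := B'.constr K
    (Sum.elim (fun j : Fin (m + 1) => ((m : K) - 2 * (j : ℕ)) • (N ^ (j : ℕ)) v)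
      (fun i => (s i : K) • (B i : V)))
  let E' : Module.End K V := B'.constr K
    (Sum.elim (fun j : Fin (m + 1) => (((j : ℕ) : K) * ((m : K) - (j : ℕ) + 1)) •
      (N ^ ((j : ℕ) - 1)) v) (fun i => (E (B i) : V)))
  have hHl : ∀ j : ℕ, H' ((N ^ j) v) = ((m : K) - 2 * j) • (N ^ j) v := by
    intro j
    by_cases hj : j < m + 1
    · have h1 : (N ^ j) v = B' (Sum.inl ⟨j, hj⟩) := by rw [hBl]
      rw [h1, Basis.constr_basis, Sum.elim_inl, hBl]
    · rw [hbig j (by omega), LinearMap.zero_apply, map_zero, smul_zero]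
  have hEl : ∀ j : ℕ, j ≤ m + 1 → E' ((N ^ j) v) = ((j : K) * ((m : K) - j + 1)) •
      (N ^ (j - 1)) v := by
    intro j hj'
    by_cases hj : j < m + 1
    · have h1 : (N ^ j) v = B' (Sum.inl ⟨j, hj⟩) := by rw [hBl]
      rw [h1, Basis.constr_basis, Sum.elim_inl]
    · have h2 : j = m + 1 := by omega
      rw [h2, hm1, LinearMap.zero_apply, map_zero]
      have : ((m + 1 : ℕ) : K) * ((m : K) - ((m + 1 : ℕ) : K) + 1) = 0 := by
        push_cast
        ring
      rw [this, zero_smul]
  have hHr : ∀ w : W, H' (w : V) = (H w : V) := by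
    have : H' ∘ₗ W.subtype = W.subtype ∘ₗ H := by
      apply B.ext
      intro i
      simp only [LinearMap.comp_apply, Submodule.subtype_apply]
      rw [← hBr, Basis.constr_basis, Sum.elim_inr, hB1]
      rfl
    intro w
    exact LinearMap.congr_fun this w
  have hEr : ∀ w : W, E' (w : V) = (E w : V) := by
    have : E' ∘ₗ W.subtype = W.subtype ∘ₗ E := by
      apply B.ext
      intro i
      simp only [LinearMap.comp_apply, Submodule.subtype_apply]
      rw [← hBr, Basis.constr_basis, Sum.elim_inr]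
    intro w
    exact LinearMap.congr_fun this w
  have hNs : ∀ j : ℕ, N ((N ^ j) v) = (N ^ (j + 1)) v := by
    intro j
    rw [pow_succ', Module.End.mul_apply]
  have hNr : ∀ w : W, N (w : V) = ((N.restrict hWN) w : V) := fun w => rfl
  have hEN : ∀ j : ℕ, N ((((j : K)) * ((m : K) - j + 1)) • (N ^ (j - 1)) v)
      = (((j : K)) * ((m : K) - j + 1)) • (N ^ j) v := by
    intro j
    rcases j with _ | j
    · simp
    · rw [map_smul, hNs, Nat.add_sub_cancel]
  refine ⟨Fin (m + 1) ⊕ ι, inferInstance, inferInstance, B',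
    Sum.elim (fun j : Fin (m + 1) => (m : ℤ) - 2 * (j : ℕ)) s,
    Sum.elim (fun _ : Fin (m + 1) => β) α, H', E', ?_, ?_, ?_, ?_, ?_⟩
  · rintro (j | i)
    · rw [hBl, hHl, Sum.elim_inl]
      push_cast
      rfl
    · rw [hBr, hHr, Sum.elim_inr, hB1]
      rfl
  · rintro (j | i)
    · rw [hBl, heig, Sum.elim_inl]
    · rw [hBr, Sum.elim_inr]
      exact congrArg Subtype.val (hB2 i)
  · have : E' ∘ₗ N - N ∘ₗ E' = H' := by
      apply B'.ext
      rintro (j | i)
      · simp only [LinearMap.sub_apply, LinearMap.comp_apply]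
        have hj := j.2
        rw [hBl, hNs, hEl _ (by omega), hEl _ (by omega), hEN, hHl, Nat.add_sub_cancel, ← sub_smul]
        congr 1
        push_cast
        ring
      · simp only [LinearMap.sub_apply, LinearMap.comp_apply]
        rw [hBr, hNr, hEr, hEr, hNr, hHr]
        exact congrArg Subtype.val (hE1 (B i))
    intro x
    exact LinearMap.congr_fun this x
  · have : H' ∘ₗ N = N ∘ₗ H' - (2 : K) • N := by
      apply B'.ext
      rintro (j | i)
      · simp only [LinearMap.sub_apply, LinearMap.comp_apply, LinearMap.smul_apply]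
        rw [hBl, hNs, hHl, hHl, map_smul, hNs, ← sub_smul]
        congr 1
        push_cast
        ring
      · simp only [LinearMap.sub_apply, LinearMap.comp_apply, LinearMap.smul_apply]
        rw [hBr, hNr, hHr, hHr, hNr]
        exact congrArg Subtype.val (hE2 (B i))
    intro x
    exact LinearMap.congr_fun this x
  · have : H' ∘ₗ E' = E' ∘ₗ H' + (2 : K) • E' := by
      apply B'.ext
      rintro (j | i)
      · simp only [LinearMap.add_apply, LinearMap.comp_apply, LinearMap.smul_apply]
        have hj := j.2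
        rw [hBl, hEl _ (by omega), hHl, map_smul, map_smul, hHl, hEl _ (by omega)]
        rcases hj0 : (j : ℕ) with _ | j'
        · simp
        · rw [smul_smul, smul_smul, smul_smul, ← add_smul, Nat.add_sub_cancel]
          congr 1
          push_cast
          ring
      · simp only [LinearMap.add_apply, LinearMap.comp_apply, LinearMap.smul_apply]
        rw [hBr, hEr, hHr, hHr, hEr]
        exact congrArg Subtype.val (hE3 (B i))
    intro x
    exact LinearMap.congr_fun this x

end

end Pool.Agent.NL18
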