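import Pool.Agent.NL18.Expo
import Pool.Agent.NL18.Strings

/-!
Adapted bases of an invertible matrix `A = Ψ exp N` and their Kronecker powers.
-/

namespace Pool.Agent.NL18

open Module Matrix Kronecker Pool.Agent.FS77

section
variable {K : Type*} [Field K] [CharZero K]
  {ι κ : Type*} [Fintype ι] [DecidableEq ι] [Fintype κ] [DecidableEq κ]

/-- there is a basis adapted to `A`, with weights `s` and eigenvalues `α` -/
def Ad (A : Matrix ι ι K) (s : ι → ℤ) (α : ι → K) : Prop :=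
  ∃ P Q Ψ N E H : Matrix ι ι K, P * Q = 1 ∧ Ψ = P * Matrix.diagonal α * Q ∧
    H = P * (Matrix.diagonal fun i => (s i : K)) * Q ∧ Commute Ψ N ∧ IsNilpotent N ∧
    A = Ψ * IsNilpotent.exp N ∧
    H * N = N * H - (2 : K) • N ∧ H * E = E * H + (2 : K) • E ∧ E * N - N * E = H

omit [CharZero K] [Fintype ι] [DecidableEq ι] [Fintype κ] [DecidableEq κ] in
theorem sub_kron (A B : Matrix ι ι K) (C : Matrix κ κ K) :
    (A - B) ⊗ₖ C = A ⊗ₖ C - B ⊗ₖ C := by
  ext p p'
  simp only [Matrix.kroneckerMap_apply, Matrix.sub_apply, sub_mul]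

omit [CharZero K] [Fintype ι] [DecidableEq ι] [Fintype κ] [DecidableEq κ] in
theorem kron_sub (A : Matrix ι ι K) (C D : Matrix κ κ K) :
    A ⊗ₖ (C - D) = A ⊗ₖ C - A ⊗ₖ D := by
  ext p p'
  simp only [Matrix.kroneckerMap_apply, Matrix.sub_apply, mul_sub]

omit [CharZero K] [Fintype ι] [Fintype κ] in
theorem kron_diag (a : ι → K) (b : κ → K) :
    (Matrix.diagonal a) ⊗ₖ (Matrix.diagonal b) = Matrix.diagonal fun p : ι × κ => a p.1 * b p.2 := by
  ext p p'
  rw [Matrix.kroneckerMap_apply]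
  by_cases h1 : p.1 = p'.1
  · by_cases h2 : p.2 = p'.2
    · have : p = p' := Prod.ext h1 h2
      subst this
      simp
    · rw [Matrix.diagonal_apply_ne _ h2, mul_zero, Matrix.diagonal_apply_ne]
      intro h
      exact h2 (by rw [h])
  · rw [Matrix.diagonal_apply_ne _ h1, zero_mul, Matrix.diagonal_apply_ne]
    intro h
    exact h1 (by rw [h])

theorem Ad.kron {A : Matrix ι ι K} {s : ι → ℤ} {α : ι → K} (h : Ad A s α)
    {A' : Matrix κ κ K} {s' : κ → ℤ} {α' : κ → K} (h' : Ad A' s' α') :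
    Ad (A ⊗ₖ A') (fun p => s p.1 + s' p.2) (fun p => α p.1 * α' p.2) := by
  obtain ⟨P, Q, Ψ, N, E, H, hPQ, hΨ, hH, hc, hn, hA, h1, h2, h3⟩ := h
  obtain ⟨P', Q', Ψ', N', E', H', hPQ', hΨ', hH', hc', hn', hA', h1', h2', h3'⟩ := h'
  have kk : ∀ (A B : Matrix ι ι K) (A' B' : Matrix κ κ K),
      (A ⊗ₖ A') * (B ⊗ₖ B') = (A * B) ⊗ₖ (A' * B') := fun A B A' B' =>
    (Matrix.mul_kronecker_mul A B A' B').symm
  refine ⟨P ⊗ₖ P', Q ⊗ₖ Q', Ψ ⊗ₖ Ψ', N ⊗ₖ (1 : Matrix κ κ K) + (1 : Matrix ι ι K) ⊗ₖ N',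
    E ⊗ₖ (1 : Matrix κ κ K) + (1 : Matrix ι ι K) ⊗ₖ E',
    H ⊗ₖ (1 : Matrix κ κ K) + (1 : Matrix ι ι K) ⊗ₖ H', ?_, ?_, ?_, ?_, ?_, ?_, ?_, ?_, ?_⟩
  · rw [kk, hPQ, hPQ', Matrix.one_kronecker_one]
  · rw [hΨ, hΨ', ← kron_diag, kk, kk]
  · have e1 : (Matrix.diagonal fun p : ι × κ => ((s p.1 + s' p.2 : ℤ) : K))
        = (Matrix.diagonal fun i => (s i : K)) ⊗ₖ (1 : Matrix κ κ K)
          + (1 : Matrix ι ι K) ⊗ₖ (Matrix.diagonal fun i => (s' i : K)) := by
      rw [← Matrix.diagonal_one, ← Matrix.diagonal_one, kron_diag, kron_diag,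
        Matrix.diagonal_add]
      congr 1
      funext p
      push_cast
      ring
    rw [e1, mul_add, add_mul, kk, kk, kk, kk, Matrix.mul_one, Matrix.mul_one, ← hH, ← hH',
      hPQ, hPQ']
  · rw [Commute, SemiconjBy, mul_add, add_mul, kk, kk, kk, kk, hc.eq, hc'.eq]
    simp only [Matrix.mul_one, Matrix.one_mul]
  · exact kron_nilp N N' hn hn'
  · rw [exp_kron N N' hn hn', kk, ← hA, ← hA']
  · simp only [mul_add, add_mul, kk, Matrix.mul_one, Matrix.one_mul, h1, h1', sub_kron,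
      kron_sub, Matrix.smul_kronecker, Matrix.kronecker_smul, smul_add]
    abel
  · simp only [mul_add, add_mul, kk, Matrix.mul_one, Matrix.one_mul, h2, h2', Matrix.add_kronecker,
      Matrix.kronecker_add, Matrix.smul_kronecker, Matrix.kronecker_smul, smul_add]
    abel
  · rw [← h3, ← h3']
    simp only [mul_add, add_mul, kk, Matrix.mul_one, Matrix.one_mul, sub_kron,
      kron_sub]
    abel

theorem Ad.reindex (e : ι ≃ κ) {A : Matrix ι ι K} {s : ι → ℤ} {α : ι → K}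
    (h : Ad A s α) :
    Ad (Matrix.reindex e e A) (fun i => s (e.symm i)) (fun i => α (e.symm i)) := by
  obtain ⟨P, Q, Ψ, N, E, H, hPQ, hΨ, hH, hc, hn, hA, h1, h2, h3⟩ := h
  let φ : Matrix ι ι K ≃ₐ[K] Matrix κ κ K := Matrix.reindexAlgEquiv K K e
  have hφ : ∀ X, Matrix.reindex e e X = φ X := fun X => rfl
  have hd : ∀ a : ι → K, Matrix.diagonal (fun i => a (e.symm i)) = φ (Matrix.diagonal a) := by
    intro a
    rw [← hφ]
    ext i j
    simp only [Matrix.reindex_apply, Matrix.submatrix_apply, Matrix.diagonal_apply,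
      EmbeddingLike.apply_eq_iff_eq]
  refine ⟨φ P, φ Q, φ Ψ, φ N, φ E, φ H, ?_, ?_, ?_, ?_, ?_, ?_, ?_, ?_, ?_⟩
  · rw [← map_mul, hPQ, map_one]
  · rw [hd, ← map_mul, ← map_mul, hΨ]
  · have : (Matrix.diagonal fun i => (((fun i => s (e.symm i)) i : ℤ) : K))
        = φ (Matrix.diagonal fun i => (s i : K)) := hd (fun i => (s i : K))
    rw [this, ← map_mul, ← map_mul, hH]
  · exact hc.map φ
  · exact hn.map φ
  · rw [hφ, hA, map_mul, IsNilpotent.map_exp hn φ]
  · rw [← map_mul, ← map_mul, h1, map_sub, map_smul]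
  · rw [← map_mul, ← map_mul, h2, map_add, map_smul]
  · rw [← map_mul, ← map_mul, ← map_sub, h3]

theorem Ad.one (b : ℕ) : Ad (1 : Matrix (Fin 0 → Fin b) (Fin 0 → Fin b) K) (fun _ => 0)
    (fun _ => 1) := by
  refine ⟨1, 1, 1, 0, 0, 0, by simp, ?_, ?_, Commute.zero_right _, IsNilpotent.zero, ?_,
    by simp, by simp, by simp⟩
  · simp
  · simp
  · rw [IsNilpotent.exp_zero, mul_one]

theorem Ad.kpow {b : ℕ} {A : Matrix (Fin b) (Fin b) K} {s : Fin b → ℤ} {α : Fin b → K}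
    (h : Ad A s α) (k : ℕ) :
    Ad (kpow A k) (fun f => ∑ i, s (f i)) (fun f => ∏ i, α (f i)) := by
  induction k with
  | zero =>
    rw [kpow_zero]
    have e1 : (fun f : Fin 0 → Fin b => ∑ i, s (f i)) = fun _ => 0 := by
      funext f
      simp
    have e2 : (fun f : Fin 0 → Fin b => ∏ i, α (f i)) = fun _ => 1 := by
      funext f
      simp
    rw [e1, e2]
    exact Ad.one b
  | succ k ih =>
    rw [kpow_succ]
    have h1 := (h.kron ih).reindex (Fin.consEquiv (fun _ => Fin b))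
    have e1 : (fun f : Fin (k + 1) → Fin b => ∑ i, s (f i))
        = fun i => s ((Fin.consEquiv (fun _ => Fin b)).symm i).1
          + ∑ j, s (((Fin.consEquiv (fun _ => Fin b)).symm i).2 j) := by
      funext f
      rw [Fin.sum_univ_succ]
      rfl
    have e2 : (fun f : Fin (k + 1) → Fin b => ∏ i, α (f i))
        = fun i => α ((Fin.consEquiv (fun _ => Fin b)).symm i).1
          * ∏ j, α (((Fin.consEquiv (fun _ => Fin b)).symm i).2 j) := by
      funext f
      rw [Fin.prod_univ_succ]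
      rfl
    rw [e1, e2]
    exact h1

end

end Pool.Agent.NL18
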