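import Pool.Agent.FS77.Walk

/-!
The combinatorial estimate: the second difference of the number of words with a given weight.
-/

namespace Pool.Agent.NL18

open Finset Pool.Agent.FS77

/-- minus the second difference at zero -/
noncomputable def DD (t : ℤ) : ℝ :=
  2 * (if t = 0 then 1 else 0) - (if t = 2 then 1 else 0) - (if t = -2 then 1 else 0)

noncomputable def gg2 (l : ℕ) : ℝ := 4 / (((l : ℝ) + 2) * Real.sqrt (l + 1))

theorem gg2_pos (l : ℕ) : 0 < gg2 l := by
  unfold gg2
  have : (0 : ℝ) < (l : ℝ) + 1 := by positivity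
  have := Real.sqrt_pos.mpr this
  positivity

theorem choose_two (l k : ℕ) (hk : k ≤ l) :
    (k + 1) * (l - k + 1) * (l + 2).choose (k + 1) = (l + 2) * (l + 1) * l.choose k := by
  have h1 := Nat.add_one_mul_choose_eq (l + 1) k
  have h2 := Nat.choose_mul_succ_eq l k
  have h3 : l + 1 - k = l - k + 1 := by omega
  rw [h3] at h2
  have h4 : l + 1 + 1 = l + 2 := rfl
  rw [h4] at h1
  calc (k + 1) * (l - k + 1) * (l + 2).choose (k + 1)
      = (l - k + 1) * ((l + 2).choose (k + 1) * (k + 1)) := by ring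
    _ = (l - k + 1) * ((l + 2) * (l + 1).choose k) := by rw [← h1]
    _ = (l + 2) * ((l + 1).choose k * (l - k + 1)) := by ring
    _ = (l + 2) * (l.choose k * (l + 1)) := by rw [← h2]
    _ = _ := by ring

/-- the second difference of the binomial coefficients -/
theorem second_diff (l k : ℕ) (hk : k ≤ l) :
    4 * (l.choose k : ℝ) - ((l + 2).choose (k + 1) : ℝ) ≤ 2 ^ l * gg2 l := by
  have h1 : ((k : ℝ) + 1) * ((l : ℝ) - k + 1) * ((l + 2).choose (k + 1) : ℝ)
      = ((l : ℝ) + 2) * (l + 1) * (l.choose k : ℝ) := by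
    have := choose_two l k hk
    have h2 : ((((k + 1) * (l - k + 1) * (l + 2).choose (k + 1) : ℕ)) : ℝ)
        = (((l + 2) * (l + 1) * l.choose k : ℕ) : ℝ) := by rw [this]
    push_cast [Nat.cast_sub hk] at h2
    exact h2
  have hk' : (k : ℝ) ≤ l := by exact_mod_cast hk
  have hk0 : (0 : ℝ) ≤ k := Nat.cast_nonneg k
  have h2 : (4 : ℝ) * ((k + 1) * (l - k + 1)) ≤ (l + 2) ^ 2 := by
    nlinarith [sq_nonneg ((k : ℝ) + 1 - (l - k + 1))]
  have h3 : (0 : ℝ) ≤ ((l + 2).choose (k + 1) : ℝ) := Nat.cast_nonneg _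
  have h4 : (0 : ℝ) ≤ (l.choose k : ℝ) := Nat.cast_nonneg _
  have hl : (0 : ℝ) < (l : ℝ) + 2 := by positivity
  -- (l+2) C(l+2,k+1) ≥ 4 (l+1) C(l,k)
  have h5 : 4 * ((l : ℝ) + 1) * (l.choose k : ℝ) ≤ (l + 2) * ((l + 2).choose (k + 1) : ℝ) := by
    have h6 : 4 * (((l : ℝ) + 2) * (l + 1) * (l.choose k : ℝ))
        ≤ (l + 2) ^ 2 * ((l + 2).choose (k + 1) : ℝ) := by
      rw [← h1]
      calc 4 * (((k : ℝ) + 1) * (l - k + 1) * ((l + 2).choose (k + 1) : ℝ))
          = (4 * (((k : ℝ) + 1) * (l - k + 1))) * ((l + 2).choose (k + 1) : ℝ) := by ring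
        _ ≤ _ := mul_le_mul_of_nonneg_right h2 h3
    have h7 : ((l : ℝ) + 2) * (4 * ((l : ℝ) + 1) * (l.choose k : ℝ))
        ≤ (l + 2) * ((l + 2) * ((l + 2).choose (k + 1) : ℝ)) := by
      calc ((l : ℝ) + 2) * (4 * ((l : ℝ) + 1) * (l.choose k : ℝ))
          = 4 * (((l : ℝ) + 2) * (l + 1) * (l.choose k : ℝ)) := by ring
        _ ≤ _ := h6
        _ = _ := by ring
    exact le_of_mul_le_mul_left h7 hl
  -- the middle coefficient
  have h8 : (l.choose k : ℝ) * Real.sqrt (l + 1) ≤ 2 ^ l := by
    have h9 : (l.choose k : ℝ) ≤ (l.choose (l / 2) : ℝ) := by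
      exact_mod_cast Nat.choose_le_middle k l
    have h10 : ((l : ℝ) + 1) * (l.choose (l / 2) : ℝ) ^ 2 ≤ 4 ^ l := by
      exact_mod_cast middle_sq l
    have hs : 0 ≤ Real.sqrt (l + 1) := Real.sqrt_nonneg _
    refine (mul_le_mul_of_nonneg_right h9 hs).trans ?_
    apply le_of_sq_le_sq _ (by positivity)
    rw [mul_pow, Real.sq_sqrt (by positivity), ← pow_mul, mul_comm l 2, pow_mul]
    norm_num
    linarith
  have hs : 0 < Real.sqrt (l + 1) := Real.sqrt_pos.mpr (by positivity)
  have h11 : 2 ^ l * gg2 l = 4 * 2 ^ l / (((l : ℝ) + 2) * Real.sqrt (l + 1)) := by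
    unfold gg2
    ring
  rw [h11, le_div_iff₀ (by positivity)]
  have h12 : (4 * (l.choose k : ℝ) - ((l + 2).choose (k + 1) : ℝ)) * (l + 2)
      ≤ 4 * (l.choose k : ℝ) := by nlinarith
  calc (4 * (l.choose k : ℝ) - ((l + 2).choose (k + 1) : ℝ)) * (((l : ℝ) + 2) * Real.sqrt (l + 1))
      = ((4 * (l.choose k : ℝ) - ((l + 2).choose (k + 1) : ℝ)) * (l + 2)) * Real.sqrt (l + 1) := by
        ring
    _ ≤ (4 * (l.choose k : ℝ)) * Real.sqrt (l + 1) := mul_le_mul_of_nonneg_right h12 hs.le
    _ = 4 * ((l.choose k : ℝ) * Real.sqrt (l + 1)) := by ring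
    _ ≤ 4 * 2 ^ l := by linarith

/-- the sum over one class of words -/
theorem class_sum (l : ℕ) (h : ℤ) :
    ∑ j ∈ range (l + 1), (l.choose j : ℝ) * DD (h + 2 * j) ≤ 2 ^ l * gg2 l := by
  have hpos : 0 ≤ 2 ^ l * gg2 l := by
    have := (gg2_pos l).le
    positivity
  have hsum : ∀ i : ℤ, ∑ j ∈ range (l + 1), (l.choose j : ℝ) * (if (j : ℤ) = i then 1 else 0)
      = if 0 ≤ i then (l.choose i.toNat : ℝ) else 0 := by
    intro i
    split_ifs with hi
    · obtain ⟨n, rfl⟩ := Int.eq_ofNat_of_zero_le hi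
      by_cases hn : n ∈ range (l + 1)
      · rw [Finset.sum_eq_single n]
        · simp
        · intro j _ hj
          rw [if_neg (by exact_mod_cast hj), mul_zero]
        · intro h'
          exact absurd hn h'
      · rw [Finset.sum_eq_zero]
        · rw [mem_range] at hn
          simp only [Int.toNat_natCast]
          rw [Nat.choose_eq_zero_of_lt (by omega)]
          simp
        · intro j hj
          rw [if_neg, mul_zero]
          intro h'
          apply hn
          have : j = n := by exact_mod_cast h'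
          rwa [← this]
    · apply Finset.sum_eq_zero
      intro j _
      rw [if_neg (by omega), mul_zero]
  rcases Int.even_or_odd' h with ⟨m, hm | hm⟩
  · -- h = 2 m, k = -m
    have h1 : ∀ j : ℕ, (l.choose j : ℝ) * DD (h + 2 * j)
        = 2 * ((l.choose j : ℝ) * (if (j : ℤ) = -m then 1 else 0))
          - (l.choose j : ℝ) * (if (j : ℤ) = -m + 1 then 1 else 0)
          - (l.choose j : ℝ) * (if (j : ℤ) = -m - 1 then 1 else 0) := by
      intro j
      unfold DD
      have e1 : (h + 2 * (j : ℤ) = 0) ↔ ((j : ℤ) = -m) := by omega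
      have e2 : (h + 2 * (j : ℤ) = 2) ↔ ((j : ℤ) = -m + 1) := by omega
      have e3 : (h + 2 * (j : ℤ) = -2) ↔ ((j : ℤ) = -m - 1) := by omega
      simp only [e1, e2, e3]
      ring
    rw [Finset.sum_congr rfl fun j _ => h1 j, Finset.sum_sub_distrib, Finset.sum_sub_distrib,
      ← Finset.mul_sum, hsum, hsum, hsum]
    by_cases hm0 : 0 ≤ -m
    · obtain ⟨k, hk⟩ := Int.eq_ofNat_of_zero_le hm0
      rw [hk]
      have e2 : (0 : ℤ) ≤ (k : ℤ) + 1 := by omega
      have e3 : ((k : ℤ) + 1).toNat = k + 1 := by omega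
      rw [if_pos (by omega), if_pos e2, e3, Int.toNat_natCast]
      by_cases hkl : k ≤ l
      · refine le_trans (le_of_eq ?_) (second_diff l k hkl)
        rcases k with _ | k
        · rw [if_neg (by omega)]
          simp only [zero_add, Nat.choose_one_right, Nat.choose_zero_right]
          push_cast
          ring
        · rw [if_pos (by omega)]
          have e4 : (((k + 1 : ℕ) : ℤ) - 1).toNat = k := by omega
          rw [e4]
          have e5 : (l + 2).choose (k + 1 + 1) = l.choose k + 2 * l.choose (k + 1)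
              + l.choose (k + 1 + 1) := by
            rw [Nat.choose_succ_succ (l + 1) (k + 1), Nat.choose_succ_succ l k,
              Nat.choose_succ_succ l (k + 1)]
            simp only [Nat.succ_eq_add_one]
            ring
          rw [e5]
          push_cast
          ring
      · rw [Nat.choose_eq_zero_of_lt (by omega : l < k)]
        have h3 : (0 : ℝ) ≤ (l.choose (k + 1) : ℝ) := Nat.cast_nonneg _
        have h4 : (0 : ℝ) ≤ (if (0 : ℤ) ≤ (k : ℤ) - 1 then (l.choose ((k : ℤ) - 1).toNat : ℝ)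
          else 0) := by
          split_ifs
          · exact Nat.cast_nonneg _
          · exact le_rfl
        have h5 : ((0 : ℕ) : ℝ) = 0 := Nat.cast_zero
        rw [h5]
        linarith
    · rw [if_neg hm0]
      have h3 : ∀ i : ℤ, (0 : ℝ) ≤ (if (0 : ℤ) ≤ i then (l.choose i.toNat : ℝ) else 0) := by
        intro i
        split_ifs
        · exact Nat.cast_nonneg _
        · exact le_rfl
      have h4 := h3 (-m + 1)
      have h5 := h3 (-m - 1)
      linarith
  · rw [Finset.sum_eq_zero]
    · exact hpos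
    · intro j _
      unfold DD
      rw [if_neg (by omega), if_neg (by omega), if_neg (by omega)]
      ring

section words
variable {K : Type*} [Field K] {b N : ℕ} (s : Fin b → ℤ) (α : Fin b → K) (x y : Fin b)

/-- the number of letters of `f` equal to `x` or `y` -/
def ll (x y : Fin b) (f : Fin N → Fin b) : ℕ := (univ.filter fun i => f i = x ∨ f i = y).card

/-- replace `x` by `y` -/
def rep (x y : Fin b) (f : Fin N → Fin b) : Fin N → Fin b := fun i => if f i = x then y else f i

/-- replace `y` by `x` on `T` -/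
def put (x : Fin b) (f : Fin N → Fin b) (T : Finset (Fin N)) : Fin N → Fin b :=
  fun i => if i ∈ T then x else f i

variable {s α x y}

theorem prod_rep (hα : α x = α y) (f : Fin N → Fin b) :
    ∏ i, α (rep x y f i) = ∏ i, α (f i) := by
  refine Finset.prod_congr rfl fun i _ => ?_
  unfold rep
  split_ifs with h
  · rw [h, hα]
  · rfl

/-- the sum over the words with the same reduction -/
theorem fiber_sum (hxy : x ≠ y) (f' : Fin N → Fin b) (hf' : ∀ i, f' i ≠ x) (G : (Fin N → Fin b) → ℝ) :
    ∑ f ∈ univ.filter (fun f => rep x y f = f'), G f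
      = ∑ T ∈ (univ.filter fun i => f' i = y).powerset, G (put x f' T) := by
  symm
  refine Finset.sum_bij (fun T _ => put x f' T) ?_ ?_ ?_ ?_
  · intro T hT
    rw [mem_filter]
    refine ⟨mem_univ _, ?_⟩
    funext i
    unfold rep put
    by_cases hi : i ∈ T
    · rw [if_pos hi, if_pos rfl]
      have := Finset.mem_powerset.mp hT hi
      exact (mem_filter.mp this).2.symm
    · rw [if_neg hi, if_neg (hf' i)]
  · intro T hT T' hT' h
    ext i
    have h1 := congrFun h i
    unfold put at h1
    by_cases hi : i ∈ T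
    · rw [if_pos hi] at h1
      by_contra h2
      have h3 : i ∉ T' := fun h4 => h2 ⟨fun _ => h4, fun _ => hi⟩
      rw [if_neg h3] at h1
      exact hf' i h1.symm
    · rw [if_neg hi] at h1
      constructor
      · intro h2
        exact absurd h2 hi
      · intro h2
        rw [if_pos h2] at h1
        exact absurd h1 (hf' i)
  · intro f hf
    have h1 := (mem_filter.mp hf).2
    refine ⟨univ.filter fun i => f i = x, ?_, ?_⟩
    · rw [Finset.mem_powerset]
      intro i hi
      rw [mem_filter] at hi ⊢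
      refine ⟨mem_univ _, ?_⟩
      rw [← h1]
      unfold rep
      rw [if_pos hi.2]
    · funext i
      unfold put
      by_cases hi : f i = x
      · rw [if_pos (by rw [mem_filter]; exact ⟨mem_univ _, hi⟩), hi]
      · rw [if_neg (by rw [mem_filter]; exact fun h => hi h.2), ← h1]
        unfold rep
        rw [if_neg hi]
  · intro T _
    rfl

theorem sum_put (hs : s x = s y + 2) (f' : Fin N → Fin b) (T : Finset (Fin N))
    (hT : T ⊆ univ.filter fun i => f' i = y) :
    ∑ i, s (put x f' T i) = ∑ i, s (f' i) + 2 * (T.card : ℤ) := by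
  have h1 : ∀ i, s (put x f' T i) = s (f' i) + if i ∈ T then 2 else 0 := by
    intro i
    unfold put
    split_ifs with h
    · have := (mem_filter.mp (hT h)).2
      rw [this, hs]
    · rw [add_zero]
  rw [Finset.sum_congr rfl fun i _ => h1 i, Finset.sum_add_distrib]
  congr 1
  rw [← Finset.sum_filter, Finset.sum_const, Finset.filter_mem_eq_inter, Finset.univ_inter,
    nsmul_eq_mul, mul_comm]

theorem ll_put (hxy : x ≠ y) (f' : Fin N → Fin b) (hf' : ∀ i, f' i ≠ x) (T : Finset (Fin N))
    (hT : T ⊆ univ.filter fun i => f' i = y) :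
    ll x y (put x f' T) = (univ.filter fun i => f' i = y).card := by
  unfold ll
  congr 1
  ext i
  rw [mem_filter, mem_filter]
  unfold put
  constructor
  · rintro ⟨_, h⟩
    refine ⟨mem_univ _, ?_⟩
    by_cases hi : i ∈ T
    · exact (mem_filter.mp (hT hi)).2
    · rw [if_neg hi] at h
      exact h.resolve_left (hf' i)
  · rintro ⟨_, h⟩
    refine ⟨mem_univ _, ?_⟩
    by_cases hi : i ∈ T
    · rw [if_pos hi]
      exact Or.inl rfl
    · rw [if_neg hi]
      exact Or.inr h

open Classical in
/-- the main estimate -/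
theorem words_le (hs : s x = s y + 2) (hα : α x = α y) (μ : K) :
    ∑ f ∈ univ.filter (fun f : Fin N → Fin b => ∏ i, α (f i) = μ), DD (∑ i, s (f i))
      ≤ ∑ f ∈ univ.filter (fun f : Fin N → Fin b => ∏ i, α (f i) = μ), gg2 (ll x y f) := by
  have hxy : x ≠ y := by
    rintro rfl
    omega
  set W := univ.filter (fun f : Fin N → Fin b => ∏ i, α (f i) = μ) with hW
  have hmaps : ∀ f ∈ W, rep x y f ∈ W.image (rep x y) := fun f hf => mem_image_of_mem _ hf
  rw [← Finset.sum_fiberwise_of_maps_to hmaps, ← Finset.sum_fiberwise_of_maps_to hmaps]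
  apply Finset.sum_le_sum
  intro f' hf'
  obtain ⟨f0, hf0, hf0'⟩ := mem_image.mp hf'
  have hne : ∀ i, f' i ≠ x := by
    intro i
    rw [← hf0']
    unfold rep
    split_ifs with h
    · exact hxy.symm
    · exact h
  have hfib : W.filter (fun f => rep x y f = f') = univ.filter (fun f => rep x y f = f') := by
    ext f
    rw [mem_filter, hW, mem_filter, mem_filter]
    constructor
    · rintro ⟨_, h⟩
      exact ⟨mem_univ _, h⟩
    · rintro ⟨_, h⟩
      refine ⟨⟨mem_univ _, ?_⟩, h⟩
      rw [← prod_rep hα f, h, ← hf0', prod_rep hα f0]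
      exact (mem_filter.mp hf0).2
  rw [hfib, fiber_sum hxy f' hne, fiber_sum hxy f' hne]
  set Y := univ.filter fun i => f' i = y with hY
  have e1 : ∑ T ∈ Y.powerset, DD (∑ i, s (put x f' T i))
      = ∑ T ∈ Y.powerset, (fun j : ℕ => DD (∑ i, s (f' i) + 2 * (j : ℤ))) T.card := by
    refine Finset.sum_congr rfl fun T hT => ?_
    rw [sum_put hs f' T (Finset.mem_powerset.mp hT)]
  have e2 : ∑ T ∈ Y.powerset, gg2 (ll x y (put x f' T)) = 2 ^ Y.card * gg2 Y.card := by
    have : ∀ T ∈ Y.powerset, gg2 (ll x y (put x f' T)) = gg2 Y.card := by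
      intro T hT
      rw [ll_put hxy f' hne T (Finset.mem_powerset.mp hT)]
    rw [Finset.sum_congr rfl this, Finset.sum_const, Finset.card_powerset, nsmul_eq_mul]
    push_cast
    ring
  rw [e1, e2, Finset.sum_powerset_apply_card (fun j : ℕ => DD (∑ i, s (f' i) + 2 * (j : ℤ)))]
  refine le_trans (le_of_eq ?_) (class_sum Y.card (∑ i, s (f' i)))
  refine Finset.sum_congr rfl fun j _ => ?_
  rw [nsmul_eq_mul]

/-- few letters in `{x, y}` -/
theorem few_le (hxy : x ≠ y) (L : ℕ) :
    ((univ.filter fun f : Fin N → Fin b => ll x y f < L).card : ℝ)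
      ≤ 2 ^ L * ((b : ℝ) - 1) ^ N := by
  have h1 : ∀ f : Fin N → Fin b, ((1 : ℝ) / 2) ^ (ll x y f)
      = ∏ i, (if f i = x ∨ f i = y then (1 : ℝ) / 2 else 1) := by
    intro f
    rw [Finset.prod_ite, Finset.prod_const, Finset.prod_const_one, mul_one]
    rfl
  have h2 : ∑ f : Fin N → Fin b, ((1 : ℝ) / 2) ^ (ll x y f) = ((b : ℝ) - 1) ^ N := by
    simp only [h1]
    have h3 := (Finset.prod_univ_sum (fun _ : Fin N => (univ : Finset (Fin b)))
      (fun _ a => if a = x ∨ a = y then (1 : ℝ) / 2 else 1))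
    rw [Fintype.piFinset_univ] at h3
    rw [← h3, Finset.prod_const, Finset.card_univ, Fintype.card_fin]
    congr 1
    have h4 : ∀ a : Fin b, (if a = x ∨ a = y then (1 : ℝ) / 2 else 1)
        = 1 - (if a = x then (1 : ℝ) / 2 else 0) - (if a = y then (1 : ℝ) / 2 else 0) := by
      intro a
      by_cases ha : a = x
      · rw [if_pos (Or.inl ha), if_pos ha, if_neg (by rw [ha]; exact hxy)]
        norm_num
      · by_cases ha' : a = y
        · rw [if_pos (Or.inr ha'), if_neg ha, if_pos ha']
          norm_num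
        · rw [if_neg (by tauto), if_neg ha, if_neg ha']
          norm_num
    simp only [h4, Finset.sum_sub_distrib, Finset.sum_ite_eq', mem_univ, if_true]
    simp
    ring
  have h3 : ((univ.filter fun f : Fin N → Fin b => ll x y f < L).card : ℝ)
      ≤ ∑ f : Fin N → Fin b, 2 ^ L * ((1 : ℝ) / 2) ^ (ll x y f) := by
    rw [Finset.card_eq_sum_ones]
    push_cast
    rw [Finset.sum_filter]
    apply Finset.sum_le_sum
    intro f _
    split_ifs with h
    · have h5 : (1 : ℝ) = 2 ^ L * ((1 : ℝ) / 2) ^ L := by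
        rw [← mul_pow]
        norm_num
      calc (1 : ℝ) = 2 ^ L * ((1 : ℝ) / 2) ^ L := h5
        _ ≤ 2 ^ L * ((1 : ℝ) / 2) ^ (ll x y f) :=
          mul_le_mul_of_nonneg_left (pow_le_pow_of_le_one (by norm_num) (by norm_num) h.le)
            (by positivity)
    · positivity
  rw [← Finset.mul_sum, h2] at h3
  exact h3

end words

end Pool.Agent.NL18
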