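import Pool.Agent.NL18.Exist

/-!
Computations in an adapted basis.
-/

namespace Pool.Agent.NL18

open Module Matrix

section
variable {K : Type*} [Field K] {ι : Type*} [Fintype ι] [DecidableEq ι]

/-- the vectors supported on `P` -/
def supp (P : ι → Prop) : Submodule K (ι → K) where
  carrier := {x | ∀ i, ¬ P i → x i = 0}
  add_mem' := by
    intro x y hx hy i hi
    simp [hx i hi, hy i hi]
  zero_mem' := fun _ _ => rfl
  smul_mem' := by
    intro c x hx i hi
    simp [hx i hi]

/-- the coordinates on `supp P` -/
def suppEquiv (P : ι → Prop) [DecidablePred P] : supp (K := K) (ι := ι) P ≃ₗ[K] ({i // P i} → K) where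
  toFun x := fun i => x.1 i.1
  map_add' x y := rfl
  map_smul' c x := rfl
  invFun y := ⟨fun i => if h : P i then y ⟨i, h⟩ else 0, fun i hi => dif_neg hi⟩
  left_inv x := by
    apply Subtype.ext
    funext i
    by_cases h : P i
    · simp [h]
    · simp [h, x.2 i h]
  right_inv y := by
    funext i
    simp [i.2]

omit [DecidableEq ι] in
theorem finrank_supp (P : ι → Prop) [DecidablePred P] :
    finrank K (supp (K := K) (ι := ι) P) = (Finset.univ.filter P).card := by
  rw [(suppEquiv P).finrank_eq, Module.finrank_fintype_fun_eq_card, Fintype.card_subtype]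

theorem diag_apply (α : ι → K) (x : ι → K) (i : ι) :
    Matrix.toLin' (Matrix.diagonal α) x i = α i * x i := by
  simp [Matrix.mulVec_diagonal]

variable {Φ : Matrix ι ι K} {α : ι → K}

theorem comm_entry (hc : Commute Φ (Matrix.diagonal α)) (i j : ι) (hij : α i ≠ α j) :
    Φ i j = 0 := by
  have h1 := congrFun (congrFun hc.eq i) j
  rw [Matrix.diagonal_mul, Matrix.mul_diagonal] at h1
  have h2 : (α i - α j) * Φ i j = 0 := by rw [sub_mul, ← h1]; ring
  rcases mul_eq_zero.mp h2 with h3 | h3
  · exact absurd (sub_eq_zero.mp h3) hij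
  · exact h3

/-- the projection to the coordinates with `α = b` -/
def pr (α : ι → K) [DecidableEq K] (b : K) : (ι → K) →ₗ[K] (ι → K) where
  toFun x := fun i => if α i = b then x i else 0
  map_add' x y := by
    funext i
    simp only [Pi.add_apply]
    split_ifs
    · rfl
    · rw [add_zero]
  map_smul' c x := by
    funext i
    simp only [Pi.smul_apply, smul_eq_mul, RingHom.id_apply]
    split_ifs
    · rfl
    · rw [mul_zero]

open Classical in
theorem pr_comm (hc : Commute Φ (Matrix.diagonal α)) (b : K) (x : ι → K) :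
    pr α b (Matrix.toLin' Φ x) = Matrix.toLin' Φ (pr α b x) := by
  funext i
  simp only [pr, LinearMap.coe_mk, AddHom.coe_mk, Matrix.toLin'_apply, Matrix.mulVec, dotProduct]
  split_ifs with hi
  · refine Finset.sum_congr rfl fun j _ => ?_
    by_cases hj : α j = b
    · rw [if_pos hj]
    · rw [comm_entry hc i j (by rw [hi]; exact fun h => hj h.symm), zero_mul, zero_mul]
  · symm
    apply Finset.sum_eq_zero
    intro j _
    by_cases hj : α j = b
    · rw [comm_entry hc i j (by rw [hj]; exact hi), zero_mul]
    · rw [if_neg hj, mul_zero]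

theorem supp_le (hc : Commute Φ (Matrix.diagonal α)) (hn : IsNilpotent (Φ - Matrix.diagonal α))
    (a : K) : supp (fun i => α i = a) ≤ Module.End.maxGenEigenspace (Matrix.toLin' Φ) a := by
  intro x hx
  obtain ⟨k, hk⟩ := hn
  have hc' : Commute (Matrix.toLin' (Φ - Matrix.diagonal α)) (Matrix.toLin' (Matrix.diagonal α)) := by
    have : Commute (Φ - Matrix.diagonal α) (Matrix.diagonal α) := hc.sub_left (Commute.refl _)
    rw [Commute, SemiconjBy, Module.End.mul_eq_comp, Module.End.mul_eq_comp,
      ← Matrix.toLin'_mul, ← Matrix.toLin'_mul, this.eq]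
  have hD : ∀ y : ι → K, (∀ i, α i ≠ a → y i = 0) ↔
      Matrix.toLin' (Matrix.diagonal α) y = a • y := by
    intro y
    constructor
    · intro h
      funext i
      rw [diag_apply, Pi.smul_apply, smul_eq_mul]
      by_cases hi : α i = a
      · rw [hi]
      · rw [h i hi, mul_zero, mul_zero]
    · intro h i hi
      have h1 := congrFun h i
      rw [diag_apply, Pi.smul_apply, smul_eq_mul] at h1
      have h2 : (α i - a) * y i = 0 := by rw [sub_mul, h1, sub_self]
      rcases mul_eq_zero.mp h2 with h3 | h3
      · exact absurd (sub_eq_zero.mp h3) hi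
      · exact h3
  have key : ∀ j : ℕ, ∀ y : ι → K, Matrix.toLin' (Matrix.diagonal α) y = a • y →
      ((Matrix.toLin' Φ - algebraMap K (Module.End K (ι → K)) a) ^ j) y
        = (Matrix.toLin' (Φ - Matrix.diagonal α) ^ j) y := by
    intro j
    induction j with
    | zero => intro y _; rfl
    | succ j ih =>
      intro y hy
      have h1 : (Matrix.toLin' Φ - algebraMap K (Module.End K (ι → K)) a) y
          = Matrix.toLin' (Φ - Matrix.diagonal α) y := by
        rw [map_sub, LinearMap.sub_apply, LinearMap.sub_apply, hy]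
        rfl
      have h2 : Matrix.toLin' (Matrix.diagonal α) (Matrix.toLin' (Φ - Matrix.diagonal α) y)
          = a • Matrix.toLin' (Φ - Matrix.diagonal α) y := by
        have := congrArg (fun f : Module.End K (ι → K) => f y) hc'.eq
        simp only [Module.End.mul_apply] at this
        rw [← this, hy, map_smul]
      rw [pow_succ, pow_succ, Module.End.mul_apply, Module.End.mul_apply, h1, ih _ h2]
  rw [Module.End.mem_maxGenEigenspace]
  refine ⟨k, ?_⟩
  have h0 := key k x ((hD x).mp (fun i hi => hx i hi))
  have h3 : Matrix.toLin' (Φ - Matrix.diagonal α) ^ k = 0 := by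
    rw [← Matrix.toLin'_pow, hk, map_zero]
  rw [h3] at h0
  simpa [Algebra.algebraMap_eq_smul_one] using h0

theorem maxGen_eq (hc : Commute Φ (Matrix.diagonal α)) (hn : IsNilpotent (Φ - Matrix.diagonal α))
    (a : K) : Module.End.maxGenEigenspace (Matrix.toLin' Φ) a = supp (fun i => α i = a) := by
  classical
  apply le_antisymm _ (supp_le hc hn a)
  intro x hx i hi
  have h1 : pr α (α i) x ∈ Module.End.maxGenEigenspace (Matrix.toLin' Φ) a := by
    rw [Module.End.mem_maxGenEigenspace] at hx ⊢
    obtain ⟨k, hk⟩ := hx
    refine ⟨k, ?_⟩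
    have hcomm : ∀ y, pr α (α i) ((Matrix.toLin' Φ - a • (1 : Module.End K (ι → K))) y)
        = (Matrix.toLin' Φ - a • (1 : Module.End K (ι → K))) (pr α (α i) y) := by
      intro y
      simp only [LinearMap.sub_apply, LinearMap.smul_apply, Module.End.one_apply, map_sub,
        map_smul, pr_comm hc]
    have : ∀ j : ℕ, ∀ y, pr α (α i) (((Matrix.toLin' Φ - a • (1 : Module.End K (ι → K))) ^ j) y)
        = ((Matrix.toLin' Φ - a • (1 : Module.End K (ι → K))) ^ j) (pr α (α i) y) := by
      intro j
      induction j with
      | zero => intro y; rfl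
      | succ j ih =>
        intro y
        rw [pow_succ', Module.End.mul_apply, Module.End.mul_apply, hcomm, ih]
    rw [← this, hk, map_zero]
  have h2 : pr α (α i) x ∈ Module.End.maxGenEigenspace (Matrix.toLin' Φ) (α i) := by
    apply supp_le hc hn
    intro j hj
    simp only [pr, LinearMap.coe_mk, AddHom.coe_mk]
    rw [if_neg hj]
  have h3 := Module.End.disjoint_genEigenspace (Matrix.toLin' Φ) hi ⊤ ⊤
  have h4 := Submodule.disjoint_def.mp h3 _ h2 h1
  have h5 := congrFun h4 i
  simpa [pr] using h5

end

section
variable {K : Type*} [Field K] [CharZero K] {ι : Type*} [Fintype ι] [DecidableEq ι] (s : ι → ℤ)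

/-- the operator `H` -/
noncomputable def HH : Module.End K (ι → K) := Matrix.toLin' (Matrix.diagonal fun i => (s i : K))

theorem HH_apply (x : ι → K) (i : ι) : HH s x i = (s i : K) * x i := by
  simp [HH, Matrix.mulVec_diagonal]

theorem HH_eig (r : ℤ) (x : ι → K) : HH s x = (r : K) • x ↔ ∀ i, s i ≠ r → x i = 0 := by
  constructor
  · intro h i hi
    have h1 := congrFun h i
    rw [HH_apply, Pi.smul_apply, smul_eq_mul] at h1
    have h2 : ((s i : K) - r) * x i = 0 := by rw [sub_mul, h1, sub_self]
    rcases mul_eq_zero.mp h2 with h3 | h3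
    · exact absurd (by exact_mod_cast sub_eq_zero.mp h3) hi
    · exact h3
  · intro h
    funext i
    rw [HH_apply, Pi.smul_apply, smul_eq_mul]
    by_cases hi : s i = r
    · rw [hi]
    · rw [h i hi, mul_zero, mul_zero]

/-- the data of an adapted basis: `E, N, H = diag s` satisfy the relations of `sl_2` -/
structure Rel (N E : Matrix ι ι K) : Prop where
  hN : (Matrix.diagonal fun i => (s i : K)) * N = N * (Matrix.diagonal fun i => (s i : K))
    - (2 : K) • N
  hE : (Matrix.diagonal fun i => (s i : K)) * E = E * (Matrix.diagonal fun i => (s i : K))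
    + (2 : K) • E
  hH : E * N - N * E = Matrix.diagonal fun i => (s i : K)

variable {s} {N E : Matrix ι ι K}

theorem Rel.sl2 (h : Rel s N E) : Sl2 (HH s) (Matrix.toLin' E) (Matrix.toLin' N) where
  hN := by
    intro x
    have := congrArg (fun A => Matrix.toLin' A x) h.hN
    simp only [Matrix.toLin'_mul, map_sub, map_smul, LinearMap.sub_apply, LinearMap.comp_apply,
      LinearMap.smul_apply] at this
    exact this
  hE := by
    intro x
    have := congrArg (fun A => Matrix.toLin' A x) h.hE
    simp only [Matrix.toLin'_mul, map_add, map_smul, LinearMap.add_apply, LinearMap.comp_apply,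
      LinearMap.smul_apply] at this
    exact this
  hH := by
    intro x
    have := congrArg (fun A => Matrix.toLin' A x) h.hH
    simp only [Matrix.toLin'_mul, map_sub, LinearMap.sub_apply, LinearMap.comp_apply] at this
    exact this
  bdd := by
    refine ⟨1 + ∑ i, |s i|, fun r hr x hx => ?_⟩
    funext i
    refine (HH_eig s r x).mp hx i ?_
    have h1 : |s i| ≤ ∑ i, |s i| :=
      Finset.single_le_sum (fun j _ => abs_nonneg (s j)) (Finset.mem_univ i)
    have h2 := le_abs_self (s i)
    omega
  bdd' := by
    refine ⟨-1 - ∑ i, |s i|, fun r hr x hx => ?_⟩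
    funext i
    refine (HH_eig s r x).mp hx i ?_
    have h1 : |s i| ≤ ∑ i, |s i| :=
      Finset.single_le_sum (fun j _ => abs_nonneg (s j)) (Finset.mem_univ i)
    have h2 := neg_abs_le (s i)
    omega

theorem Rel.N_entry (h : Rel s N E) (i j : ι) (hij : s i ≠ s j - 2) : N i j = 0 := by
  have h1 := congrFun (congrFun h.hN i) j
  rw [Matrix.diagonal_mul, Matrix.sub_apply, Matrix.mul_diagonal, Matrix.smul_apply,
    smul_eq_mul] at h1
  have h2 : ((s i : K) - s j + 2) * N i j = 0 := by linear_combination h1
  rcases mul_eq_zero.mp h2 with h3 | h3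
  · exfalso
    apply hij
    have h4 : (((s i - s j + 2 : ℤ)) : K) = 0 := by push_cast; exact h3
    have h5 : s i - s j + 2 = 0 := by exact_mod_cast h4
    omega
  · exact h3

end

end Pool.Agent.NL18
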