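import Pool.Agent.NL18.Adapt

/-!
Existence of adapted bases.
-/

namespace Pool.Agent.NL18

open Module Matrix Kronecker Pool.Agent.FS77

section
universe u
variable {K : Type u} [Field K] [CharZero K] [IsAlgClosed K]

omit [CharZero K] [IsAlgClosed K] in
/-- a diagonalizable matrix is semisimple -/
theorem ss_diag {ι : Type*} [Fintype ι] [DecidableEq ι] (P Q : Matrix ι ι K) (hPQ : P * Q = 1)
    (α : ι → K) : Module.End.IsSemisimple (Matrix.toLin' (P * Matrix.diagonal α * Q)) := by
  classical
  have hQP : Q * P = 1 := mul_eq_one_comm.mp hPQ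
  let φ : Matrix ι ι K →ₐ[K] Matrix ι ι K := AlgHom.ofLinearMap
    { toFun := fun X => P * X * Q
      map_add' := fun X Y => by rw [Matrix.mul_add, Matrix.add_mul]
      map_smul' := fun c X => by simp }
    (by change P * 1 * Q = 1; rw [Matrix.mul_one, hPQ])
    (by
      intro X Y
      change P * (X * Y) * Q = (P * X * Q) * (P * Y * Q)
      simp only [Matrix.mul_assoc]
      rw [← Matrix.mul_assoc Q P, hQP, Matrix.one_mul])
  have e1 : P * Matrix.diagonal α * Q = φ (Matrix.diagonalAlgHom K α) := rfl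
  rw [e1]
  apply ss_hom φ
  set p : Polynomial K := ∏ a ∈ Finset.univ.image α, (Polynomial.X - Polynomial.C a) with hp
  have hsep : p.Separable := by
    rw [hp, Polynomial.separable_prod_X_sub_C_iff']
    intro x _ y _ h
    exact h
  refine Module.End.isSemisimple_of_squarefree_aeval_eq_zero hsep.squarefree ?_
  have e2 : Polynomial.aeval (Matrix.toLin' (Matrix.diagonalAlgHom K α)) p
      = (Matrix.toLinAlgEquiv' : Matrix ι ι K ≃ₐ[K] Module.End K (ι → K))
        (Polynomial.aeval (Matrix.diagonalAlgHom K α) p) := by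
    exact Polynomial.aeval_algHom_apply
      (Matrix.toLinAlgEquiv' : Matrix ι ι K ≃ₐ[K] Module.End K (ι → K)).toAlgHom _ _
  rw [e2, Polynomial.aeval_algHom_apply]
  have e3 : Polynomial.aeval α p = 0 := by
    funext i
    have h1 := Polynomial.aeval_algHom_apply (Pi.evalAlgHom K (fun _ : ι => K) i) α p
    rw [Pi.evalAlgHom_apply, Pi.evalAlgHom_apply] at h1
    rw [← h1, Pi.zero_apply, Polynomial.coe_aeval_eq_eval, hp, Polynomial.eval_prod]
    apply Finset.prod_eq_zero (Finset.mem_image_of_mem α (Finset.mem_univ i))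
    simp
  rw [e3, map_zero, map_zero]

/-- an invertible matrix is a semisimple one times the exponential of a nilpotent one -/
theorem exists_psi_exp {ι : Type*} [Fintype ι] [DecidableEq ι] (A : Matrix ι ι K)
    (hA : A.det ≠ 0) :
    ∃ S N : Matrix ι ι K, Module.End.IsSemisimple (Matrix.toLin' S) ∧ IsNilpotent N ∧
      Commute S N ∧ A = S * IsNilpotent.exp N := by
  obtain ⟨n0, hn0, s0, hs0, hnn, hss, hsum⟩ :=
    Module.End.exists_isNilpotent_isSemisimple (K := K) (f := Matrix.toLin' A)
  have c1 : Commute s0 n0 := by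
    have h1 : Commute (Matrix.toLin' A) n0 := Algebra.commute_of_mem_adjoin_self hn0
    have h2 : s0 = Matrix.toLin' A - n0 := by rw [hsum]; abel
    rw [h2]
    exact h1.sub_left (Commute.refl _)
  let e : Matrix ι ι K ≃ₐ[K] Module.End K (ι → K) := Matrix.toLinAlgEquiv'
  set n := e.symm n0 with hn
  set s := e.symm s0 with hs
  have cs : Commute s n := c1.map e.symm
  have hnil : IsNilpotent n := hnn.map e.symm
  have hA2 : A = n + s := by
    rw [hn, hs, ← map_add, ← hsum]
    exact (e.symm_apply_apply A).symm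
  have hAu : IsUnit A := (Matrix.isUnit_iff_isUnit_det A).mpr (isUnit_iff_ne_zero.mpr hA)
  have hsu : IsUnit s := by
    have h1 : s = A + -n := by rw [hA2]; abel
    rw [h1]
    apply IsNilpotent.isUnit_add_left_of_commute hnil.neg hAu
    rw [hA2]
    exact ((Commute.refl n).neg_left).add_right (cs.symm.neg_left)
  obtain ⟨u, hu⟩ := hsu
  have cu : Commute (↑u⁻¹ : Matrix ι ι K) n := by
    have : Commute (u : Matrix ι ι K) n := by rw [hu]; exact cs
    exact this.units_inv_left
  have hν : IsNilpotent ((↑u⁻¹ : Matrix ι ι K) * n) := cu.isNilpotent_mul_left hnil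
  obtain ⟨N, h1, h2, h3⟩ := exists_log' ((↑u⁻¹ : Matrix ι ι K) * n) hν
  refine ⟨s, N, ?_, h1, ?_, ?_⟩
  · have : Matrix.toLin' s = s0 := e.apply_symm_apply s0
    rw [this]
    exact hss
  · apply h3
    have h4 : Commute s (↑u⁻¹ : Matrix ι ι K) := by
      rw [← hu]
      exact (Commute.refl (u : Matrix ι ι K)).units_inv_right
    exact h4.mul_right cs
  · rw [h2, mul_add, mul_one, ← mul_assoc, ← hu, Units.mul_inv, one_mul, hu, hA2, add_comm]

theorem exists_ad {b : ℕ} (A : Matrix (Fin b) (Fin b) K) (hA : A.det ≠ 0) :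
    ∃ (s : Fin b → ℤ) (α : Fin b → K), Ad A s α := by
  obtain ⟨S, N, hss, hnil, hcomm, hAe⟩ := exists_psi_exp A hA
  have hNn : IsNilpotent (Matrix.toLin' N : Module.End K (Fin b → K)) := by
    obtain ⟨k, hk⟩ := hnil
    exact ⟨k, by rw [← Matrix.toLin'_pow, hk, map_zero]⟩
  have hcx : ∀ x, Matrix.toLin' N (Matrix.toLin' S x) = Matrix.toLin' S (Matrix.toLin' N x) := by
    intro x
    rw [← LinearMap.comp_apply, ← Matrix.toLin'_mul, ← hcomm.eq, Matrix.toLin'_mul]
    rfl
  obtain ⟨ι, i1, i2, B, s, α, H, E, hB1, hB2, hE1, hE2, hE3⟩ :=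
    adp_exists _ (Fin b → K) (Matrix.toLin' S) (Matrix.toLin' N) rfl hss hNn hcx
  have hcard : Fintype.card ι = b := by
    have := Module.finrank_eq_card_basis B
    rw [Module.finrank_fin_fun] at this
    exact this.symm
  let e : ι ≃ Fin b := (Fintype.equivFin ι).trans (finCongr hcard)
  let B' : Basis (Fin b) K (Fin b → K) := B.reindex e
  refine ⟨fun i => s (e.symm i), fun i => α (e.symm i), ?_⟩
  have hB1' : ∀ i, H (B' i) = (s (e.symm i) : K) • B' i := by
    intro i
    rw [Basis.reindex_apply]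
    exact hB1 _
  have hB2' : ∀ i, Matrix.toLin' S (B' i) = α (e.symm i) • B' i := by
    intro i
    rw [Basis.reindex_apply]
    exact hB2 _
  let P : Matrix (Fin b) (Fin b) K := (Pi.basisFun K (Fin b)).toMatrix B'
  let Q : Matrix (Fin b) (Fin b) K := B'.toMatrix (Pi.basisFun K (Fin b))
  have hPQ : P * Q = 1 := Basis.toMatrix_mul_toMatrix_flip _ _
  have hPc : ∀ i j, P i j = B' j i := fun i j => rfl
  have hdiag : ∀ (T : Module.End K (Fin b → K)) (t : Fin b → K), (∀ i, T (B' i) = t i • B' i) →
      LinearMap.toMatrix' T = P * Matrix.diagonal t * Q := by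
    intro T t hT
    have h1 : LinearMap.toMatrix' T * P = P * Matrix.diagonal t := by
      ext i j
      rw [Matrix.mul_diagonal]
      have h2 : (LinearMap.toMatrix' T * P) i j = (LinearMap.toMatrix' T).mulVec (B' j) i := by
        simp only [Matrix.mul_apply, Matrix.mulVec, dotProduct, hPc]
      rw [h2, LinearMap.toMatrix'_mulVec, hT, hPc, Pi.smul_apply, smul_eq_mul, mul_comm]
    rw [← h1, Matrix.mul_assoc, hPQ, Matrix.mul_one]
  have hmul : ∀ S T : Module.End K (Fin b → K), LinearMap.toMatrix' (S * T)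
      = LinearMap.toMatrix' S * LinearMap.toMatrix' T := fun S T => LinearMap.toMatrix'_comp S T
  refine ⟨P, Q, S, N, LinearMap.toMatrix' E, LinearMap.toMatrix' H, hPQ,
    ?_, hdiag H _ hB1', hcomm, hnil, hAe, ?_, ?_, ?_⟩
  · rw [← hdiag _ _ hB2', LinearMap.toMatrix'_toLin']
  · have h1 : H * Matrix.toLin' N = Matrix.toLin' N * H - (2 : K) • Matrix.toLin' N :=
      LinearMap.ext hE2
    have h2 := congrArg LinearMap.toMatrix' h1
    rw [map_sub, map_smul, hmul, hmul, LinearMap.toMatrix'_toLin'] at h2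
    exact h2
  · have h1 : H * E = E * H + (2 : K) • E := LinearMap.ext hE3
    have h2 := congrArg LinearMap.toMatrix' h1
    rw [map_add, map_smul, hmul, hmul] at h2
    exact h2
  · have h1 : E * Matrix.toLin' N - Matrix.toLin' N * E = H := LinearMap.ext hE1
    have h2 := congrArg LinearMap.toMatrix' h1
    rw [map_sub, hmul, hmul, LinearMap.toMatrix'_toLin'] at h2
    exact h2

/-- a non-semisimple matrix has a string of length at least two -/
theorem Ad.exists_pair {b : ℕ} {A : Matrix (Fin b) (Fin b) K} {s : Fin b → ℤ} {α : Fin b → K}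
    (h : Ad A s α) (hs : ¬ Module.End.IsSemisimple (Matrix.toLin' A)) :
    ∃ x y : Fin b, s x = s y + 2 ∧ α x = α y := by
  obtain ⟨P, Q, Ψ, N, E, H, hPQ, hΨ, hH, hc, hn, hA, h1, h2, h3⟩ := h
  have hQP : Q * P = 1 := mul_eq_one_comm.mp hPQ
  by_contra hcon
  push Not at hcon
  apply hs
  have cP : ∀ A : Matrix (Fin b) (Fin b) K, P * (Q * A) = A := by
    intro A
    rw [← Matrix.mul_assoc, hPQ, Matrix.one_mul]
  have cQ : ∀ A : Matrix (Fin b) (Fin b) K, Q * (P * A) = A := by
    intro A
    rw [← Matrix.mul_assoc, hQP, Matrix.one_mul]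
  set M := Q * N * P with hM
  have e1 : (Matrix.diagonal fun i => (s i : K)) * M = M * (Matrix.diagonal fun i => (s i : K))
      - (2 : K) • M := by
    have e0 : (Matrix.diagonal fun i => (s i : K)) = Q * H * P := by
      rw [hH]
      simp only [Matrix.mul_assoc, hQP, Matrix.mul_one, cQ]
    rw [e0, hM]
    have := congrArg (fun A => Q * A * P) h1
    simp only [Matrix.mul_sub, Matrix.sub_mul, Matrix.mul_smul, Matrix.smul_mul] at this
    simpa only [Matrix.mul_assoc, cP] using this
  have e2 : Matrix.diagonal α * M = M * Matrix.diagonal α := by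
    have e0 : Matrix.diagonal α = Q * Ψ * P := by
      rw [hΨ]
      simp only [Matrix.mul_assoc, hQP, Matrix.mul_one, cQ]
    rw [e0, hM]
    have := congrArg (fun A => Q * A * P) hc.eq
    simpa only [Matrix.mul_assoc, cP] using this
  have hM0 : M = 0 := by
    ext i j
    by_contra hne
    rw [Matrix.zero_apply] at hne
    have f1 := congrFun (congrFun e1 i) j
    rw [Matrix.diagonal_mul, Matrix.sub_apply, Matrix.mul_diagonal, Matrix.smul_apply,
      smul_eq_mul] at f1
    have f2 := congrFun (congrFun e2 i) j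
    rw [Matrix.diagonal_mul, Matrix.mul_diagonal] at f2
    have f3 : ((s i + 2 - s j : ℤ) : K) * M i j = 0 := by
      push_cast
      linear_combination f1
    have f4 : (s i + 2 - s j : ℤ) = 0 := by
      rcases mul_eq_zero.mp f3 with h | h
      · exact_mod_cast h
      · exact absurd h hne
    have f5 : (α i - α j) * M i j = 0 := by linear_combination f2
    have f6 : α i - α j = 0 := (mul_eq_zero.mp f5).resolve_right hne
    exact hcon j i (by omega) (sub_eq_zero.mp f6).symm
  have hN0 : N = 0 := by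
    have : N = P * M * Q := by
      rw [hM]
      simp only [Matrix.mul_assoc, hPQ, Matrix.mul_one, cP]
    rw [this, hM0]
    simp
  rw [hA, hN0, IsNilpotent.exp_zero, mul_one, hΨ]
  exact ss_diag P Q hPQ α

end

end Pool.Agent.NL18
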