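import Pool.Agent.FS77.Semi

/-!
Exponentials of nilpotent matrices: Kronecker sums, the unit `(exp N - 1) / N`, logarithms.
-/

namespace Pool.Agent.NL18

open Matrix Module Kronecker Pool.Agent.FS77 Finset

section ring
variable {A : Type*} [Ring A] [Module ℚ A]

/-- `exp N - 1` is `N` times a unit. -/
theorem exp_sub_one (N : A) (h : IsNilpotent N) :
    ∃ Z : A, IsUnit Z ∧ IsNilpotent.exp N - 1 = N * Z ∧ ∀ X, Commute X N → Commute X Z := by
  obtain ⟨k, hk⟩ := h
  have hk2 : N ^ (k + 2) = 0 := by rw [pow_add, hk, zero_mul]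
  refine ⟨∑ i ∈ range (k + 1), (((i + 1).factorial : ℚ))⁻¹ • N ^ i, ?_, ?_, ?_⟩
  · rw [Finset.sum_range_succ']
    simp only [zero_add, Nat.factorial_one, Nat.cast_one, inv_one, pow_zero, one_smul]
    apply IsNilpotent.isUnit_add_one
    apply Commute.isNilpotent_sum
    · intro i _
      exact IsNilpotent.smul (IsNilpotent.pow_of_pos ⟨k, hk⟩ (by omega)) _
    · intro i j _ _
      exact ((Commute.refl N).pow_pow _ _).smul_left _ |>.smul_right _
  · rw [IsNilpotent.exp_eq_sum hk2, Finset.sum_range_succ' _ (k + 1)]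
    simp only [Nat.factorial_zero, Nat.cast_one, inv_one, pow_zero, one_smul,
      add_sub_cancel_right]
    rw [Finset.mul_sum]
    refine Finset.sum_congr rfl fun i _ => ?_
    rw [mul_smul_comm, ← pow_succ']
  · intro X hX
    apply Commute.sum_right
    intro i _
    exact (hX.pow_right i).smul_right _

end ring

section comm
variable {R : Type*} [CommRing R] [Module ℚ R]

theorem exp_two (y : R) (h : IsNilpotent y) : ∃ g : R, IsNilpotent.exp y = 1 + y + y ^ 2 * g := by
  obtain ⟨k, hk⟩ := h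
  have hk2 : y ^ (k + 2) = 0 := by rw [pow_add, hk, zero_mul]
  refine ⟨∑ i ∈ range k, (((i + 2).factorial : ℚ))⁻¹ • y ^ i, ?_⟩
  rw [IsNilpotent.exp_eq_sum hk2, Finset.sum_range_succ', Finset.sum_range_succ', Finset.mul_sum]
  simp only [zero_add, Nat.factorial_zero, Nat.factorial_one, Nat.cast_one, inv_one, pow_zero,
    one_smul, pow_one]
  have : ∀ i, (((i + 1 + 1).factorial : ℚ))⁻¹ • y ^ (i + 1 + 1)
      = y ^ 2 * ((((i + 2).factorial : ℚ))⁻¹ • y ^ i) := by
    intro i
    rw [mul_smul_comm, ← pow_add, add_comm 2 i]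
  simp only [this]
  ring

/-- logarithms in commutative rings -/
theorem exists_log (n : R) (hn : IsNilpotent n) :
    ∃ N : R, IsNilpotent N ∧ IsNilpotent.exp N = 1 + n := by
  have key : ∀ k : ℕ, ∃ c g : R, IsNilpotent.exp (n * c) = 1 + n + n ^ (k + 1) * g := by
    intro k
    induction k with
    | zero =>
      refine ⟨0, -1, ?_⟩
      rw [mul_zero, IsNilpotent.exp_zero]
      ring
    | succ k ih =>
      obtain ⟨c, g, h⟩ := ih
      have hc : IsNilpotent (n * c) := (Commute.all n c).isNilpotent_mul_right hn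
      have hy : IsNilpotent (-(n ^ (k + 1) * g)) :=
        ((Commute.all _ g).isNilpotent_mul_right (hn.pow_of_pos (by omega))).neg
      obtain ⟨e, he⟩ := exp_two _ hy
      refine ⟨c - n ^ k * g, -g - n ^ k * g ^ 2 + (1 + n + n ^ (k + 1) * g) * n ^ k * g ^ 2 * e, ?_⟩
      have h1 : n * (c - n ^ k * g) = n * c + -(n ^ (k + 1) * g) := by ring
      rw [h1, IsNilpotent.exp_add_of_commute (Commute.all _ _) hc hy, h, he]
      ring
  obtain ⟨m, hm⟩ := hn
  obtain ⟨c, g, h⟩ := key m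
  refine ⟨n * c, (Commute.all n c).isNilpotent_mul_right ⟨m, hm⟩, ?_⟩
  rw [h, pow_succ, hm, zero_mul, zero_mul, add_zero]

end comm

section alg
variable {A : Type*} [Ring A] [Algebra ℚ A]

/-- logarithms of unipotent elements -/
theorem exists_log' (n : A) (hn : IsNilpotent n) :
    ∃ N : A, IsNilpotent N ∧ IsNilpotent.exp N = 1 + n ∧ ∀ X, Commute X n → Commute X N := by
  let S := Algebra.adjoin ℚ {n}
  let i1 : CommRing S :=
    { (inferInstance : Ring S) with
      mul_comm := by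
        intro a b
        have h1 : ∀ x ∈ ({n} : Set A), ∀ y ∈ ({n} : Set A), x * y = y * x := by
          intro a ha b hb
          rw [Set.mem_singleton_iff.mp ha, Set.mem_singleton_iff.mp hb]
        have := (Algebra.isMulCommutative_adjoin ℚ h1).is_comm.comm a b
        exact this }
  let n' : S := ⟨n, Algebra.subset_adjoin rfl⟩
  have hn' : IsNilpotent n' := by
    obtain ⟨k, hk⟩ := hn
    exact ⟨k, Subtype.ext hk⟩
  obtain ⟨N', h1, h2⟩ := exists_log n' hn'
  have h3 : ∀ X, Commute X n → Commute X (N' : A) := by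
    intro X hX
    have h4 : (N' : A) ∈ Subalgebra.centralizer ℚ {X} := by
      have h5 : S ≤ Subalgebra.centralizer ℚ {X} := by
        apply Algebra.adjoin_le
        rintro y rfl
        rw [SetLike.mem_coe, Subalgebra.mem_centralizer_iff]
        rintro z rfl
        exact hX.eq
      exact h5 N'.2
    rw [Subalgebra.mem_centralizer_iff] at h4
    exact h4 X rfl
  refine ⟨N', ?_, ?_, h3⟩
  · obtain ⟨k, hk⟩ := h1
    exact ⟨k, congrArg Subtype.val hk⟩
  · have h4 := IsNilpotent.map_exp h1 S.val.toRingHom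
    have h5 : S.val.toRingHom N' = (N' : A) := rfl
    rw [h5] at h4
    rw [← h4, h2]
    rfl

end alg

section kron
variable {K : Type*} [Field K] [CharZero K]
  {ι κ : Type*} [Fintype ι] [DecidableEq ι] [Fintype κ] [DecidableEq κ]

theorem kron_nilp (N : Matrix ι ι K) (N' : Matrix κ κ K) (h : IsNilpotent N)
    (h' : IsNilpotent N') :
    IsNilpotent (N ⊗ₖ (1 : Matrix κ κ K) + (1 : Matrix ι ι K) ⊗ₖ N') := by
  have h1 : IsNilpotent (kl ι κ N) := h.map (kl ι κ)
  have h2 : IsNilpotent (kr ι κ N') := h'.map (kr ι κ)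
  have hc : Commute (kl ι κ N) (kr ι κ N') := by
    change (N ⊗ₖ (1 : Matrix κ κ K)) * ((1 : Matrix ι ι K) ⊗ₖ N') = (1 ⊗ₖ N') * (N ⊗ₖ 1)
    rw [← Matrix.mul_kronecker_mul, ← Matrix.mul_kronecker_mul, one_mul, mul_one, one_mul, mul_one]
  exact hc.isNilpotent_add h1 h2

theorem exp_kron (N : Matrix ι ι K) (N' : Matrix κ κ K) (h : IsNilpotent N)
    (h' : IsNilpotent N') :
    IsNilpotent.exp (N ⊗ₖ (1 : Matrix κ κ K) + (1 : Matrix ι ι K) ⊗ₖ N')
      = IsNilpotent.exp N ⊗ₖ IsNilpotent.exp N' := by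
  have h1 : IsNilpotent (kl ι κ N) := h.map (kl ι κ)
  have h2 : IsNilpotent (kr ι κ N') := h'.map (kr ι κ)
  have hc : Commute (kl ι κ N) (kr ι κ N') := by
    change (N ⊗ₖ (1 : Matrix κ κ K)) * ((1 : Matrix ι ι K) ⊗ₖ N') = (1 ⊗ₖ N') * (N ⊗ₖ 1)
    rw [← Matrix.mul_kronecker_mul, ← Matrix.mul_kronecker_mul, one_mul, mul_one, one_mul, mul_one]
  have h3 := IsNilpotent.exp_add_of_commute hc h1 h2
  rw [← IsNilpotent.map_exp h (kl ι κ), ← IsNilpotent.map_exp h' (kr ι κ)] at h3
  change IsNilpotent.exp (N ⊗ₖ (1 : Matrix κ κ K) + (1 : Matrix ι ι K) ⊗ₖ N')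
    = (IsNilpotent.exp N ⊗ₖ (1 : Matrix κ κ K)) * ((1 : Matrix ι ι K) ⊗ₖ IsNilpotent.exp N') at h3
  rw [h3, ← Matrix.mul_kronecker_mul, one_mul, mul_one]

end kron

end Pool.Agent.NL18
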