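import Pool.Agent.NL18.Gram

/-!
The semisimple case: the form is nondegenerate on the eigenspace.
-/

namespace Pool.Agent.NL18

open Module Matrix Pool.Agent.FS77

section
variable {K : Type*} [Field K] [IsAlgClosed K] {ι : Type*} [Fintype ι] [DecidableEq ι]

theorem semi_gram (B F : Matrix ι ι K) (μ : K) (hμ : μ ≠ 0) (hF : Bᵀ * F * B = (μ * μ) • F)
    (hdet : F.det ≠ 0) (hs : Module.End.IsSemisimple (Matrix.toLin' B)) :
    ∃ (r : ℕ) (z : Fin r → ι → K), (∀ i, B *ᵥ z i = μ • z i) ∧
      (Matrix.of fun i j => z i ⬝ᵥ (F *ᵥ z j)).rank = alg B μ := by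
  set W := Module.End.genEigenspace (Matrix.toLin' B) μ (1 : ℕ) with hW
  have hWd : finrank K W = alg B μ := geo_eq_alg B hs μ 1 le_rfl
  let bs := finBasis K W
  have hmem : ∀ x : ι → K, x ∈ W ↔ B *ᵥ x = μ • x := by
    intro x
    rw [hW, Module.End.mem_genEigenspace_nat]
    simp only [pow_one, LinearMap.mem_ker, LinearMap.sub_apply, LinearMap.smul_apply,
      Module.End.one_apply, Matrix.toLin'_apply, sub_eq_zero]
  refine ⟨finrank K W, fun i => (bs i : ι → K), fun i => (hmem _).mp (bs i).2, ?_⟩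
  rw [← hWd]
  set G : Matrix (Fin (finrank K W)) (Fin (finrank K W)) K :=
    Matrix.of fun i j => (bs i : ι → K) ⬝ᵥ (F *ᵥ (bs j : ι → K)) with hG
  have hinj : Function.Injective G.mulVec := by
    have h0 : ∀ c, G *ᵥ c = 0 → c = 0 := by
      intro c hc
      set x : W := ∑ j, c j • bs j with hx
      have hxv : (x : ι → K) = ∑ j, c j • (bs j : ι → K) := by
        rw [hx]
        simp
      have h1 : ∀ i, (bs i : ι → K) ⬝ᵥ (F *ᵥ (x : ι → K)) = 0 := by
        intro i
        have h2 := congrFun hc i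
        rw [Pi.zero_apply] at h2
        rw [← h2, hxv, Matrix.mulVec_sum, dotProduct_sum]
        have h3 : (G *ᵥ c) i = ∑ j, ((bs i : ι → K) ⬝ᵥ (F *ᵥ (bs j : ι → K))) * c j := rfl
        rw [h3]
        refine Finset.sum_congr rfl fun j _ => ?_
        rw [Matrix.mulVec_smul, dotProduct_smul, smul_eq_mul, mul_comm]
      have h2 : ∀ y ∈ W, y ⬝ᵥ (F *ᵥ (x : ι → K)) = 0 := by
        intro y hy
        have h3 : (⟨y, hy⟩ : W) = ∑ i, bs.repr ⟨y, hy⟩ i • bs i := (bs.sum_repr _).symm
        have h4 := congrArg Subtype.val h3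
        simp only [Submodule.coe_sum, Submodule.coe_smul] at h4
        rw [h4, sum_dotProduct]
        apply Finset.sum_eq_zero
        intro i _
        rw [smul_dotProduct, h1, smul_zero]
      let L : (ι → K) →ₗ[K] K :=
        { toFun := fun y => y ⬝ᵥ (F *ᵥ (x : ι → K))
          map_add' := fun y y' => add_dotProduct _ _ _
          map_smul' := fun a y => smul_dotProduct _ _ _ }
      have h5 : (⊤ : Submodule K (ι → K)) ≤ LinearMap.ker L := by
        rw [← hs.iSup_eigenspace_eq_top]
        apply iSup_le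
        intro lam y hy
        rw [LinearMap.mem_ker]
        change y ⬝ᵥ (F *ᵥ (x : ι → K)) = 0
        rw [Module.End.mem_eigenspace_iff, Matrix.toLin'_apply] at hy
        by_cases hl : lam = μ
        · exact h2 y ((hmem y).mpr (by rw [← hl]; exact hy))
        · have hxe := (hmem _).mp x.2
          have h6 : (B *ᵥ y) ⬝ᵥ (F *ᵥ (B *ᵥ (x : ι → K))) = μ * μ * (y ⬝ᵥ (F *ᵥ (x : ι → K))) := by
            have e1 : (B *ᵥ y) ⬝ᵥ (F *ᵥ (B *ᵥ (x : ι → K)))
                = y ⬝ᵥ ((Bᵀ * F * B) *ᵥ (x : ι → K)) := by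
              rw [← Matrix.mulVec_mulVec, ← Matrix.mulVec_mulVec, Matrix.dotProduct_mulVec y Bᵀ,
                Matrix.vecMul_transpose]
            rw [e1, hF, Matrix.smul_mulVec, dotProduct_smul, smul_eq_mul]
          rw [hy, hxe, Matrix.mulVec_smul, dotProduct_smul, smul_dotProduct, smul_eq_mul,
            smul_eq_mul] at h6
          have h7 : (μ * (lam - μ)) * (y ⬝ᵥ (F *ᵥ (x : ι → K))) = 0 := by linear_combination h6
          exact (mul_eq_zero.mp h7).resolve_left (mul_ne_zero hμ (sub_ne_zero.mpr hl))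
      have h8 : F *ᵥ (x : ι → K) = 0 := by
        funext i
        have h9 : L (Pi.single i 1) = 0 := by
          have := h5 (Submodule.mem_top (x := Pi.single i (1 : K)))
          rwa [LinearMap.mem_ker] at this
        change (Pi.single i (1 : K)) ⬝ᵥ (F *ᵥ (x : ι → K)) = 0 at h9
        rw [single_dotProduct, one_mul] at h9
        exact h9
      have h9 : (x : ι → K) = 0 := by
        have hu : IsUnit F := (Matrix.isUnit_iff_isUnit_det F).mpr (isUnit_iff_ne_zero.mpr hdet)
        apply Matrix.mulVec_injective_iff_isUnit.mpr hu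
        rw [h8, Matrix.mulVec_zero]
      have h10 : x = 0 := Subtype.ext h9
      have h11 := Fintype.linearIndependent_iff.mp bs.linearIndependent c (by rw [← hx]; exact h10)
      funext i
      exact h11 i
    intro c c' hcc
    have h1 : G *ᵥ (c - c') = 0 := by
      rw [Matrix.mulVec_sub]
      exact sub_eq_zero.mpr hcc
    exact sub_eq_zero.mp (h0 _ h1)
  have hu : IsUnit G := Matrix.mulVec_injective_iff_isUnit.mp hinj
  rw [Matrix.rank_of_isUnit G hu, Fintype.card_fin]

end

end Pool.Agent.NL18
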