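import Pool.Agent.NL18.Trans
import Pool.Agent.NL18.Comb
import Pool.Agent.NL18.Semi
import Pool.Agent.FS77.Count

/-!
The numerical zero-one law.
-/

namespace Pool.Agent.NL18

open Matrix Module Finset Pool.Agent.FS77

theorem gg2_le_two (l : ℕ) : gg2 l ≤ 2 := by
  unfold gg2
  have h1 : (1 : ℝ) ≤ Real.sqrt (l + 1) := by
    rw [Real.one_le_sqrt]
    have : (0 : ℝ) ≤ l := Nat.cast_nonneg l
    linarith
  have h0 : (0 : ℝ) ≤ l := Nat.cast_nonneg l
  rw [div_le_iff₀ (by positivity)]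
  nlinarith

theorem gg2_le (L l : ℕ) (h : L ≤ l) : gg2 l ≤ 4 / (((L : ℝ) + 1) * Real.sqrt (L + 1)) := by
  unfold gg2
  have h0 : (0 : ℝ) ≤ L := Nat.cast_nonneg L
  have h1 : (L : ℝ) ≤ l := by exact_mod_cast h
  have hs : 0 < Real.sqrt (L + 1) := Real.sqrt_pos.mpr (by linarith)
  have hs2 : Real.sqrt (L + 1) ≤ Real.sqrt (l + 1) := Real.sqrt_le_sqrt (by linarith)
  apply div_le_div_of_nonneg_left (by norm_num) (by positivity)
  apply mul_le_mul (by linarith) hs2 hs.le (by linarith)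

section
universe u
variable {K : Type u} [Field K] [IsAlgClosed K] [CharZero K]

open Classical in
theorem rank_le_words {b N : ℕ} {A : Matrix (Fin b) (Fin b) K} {s : Fin b → ℤ} {α : Fin b → K}
    (h : Ad A s α) {x y : Fin b} (hs : s x = s y + 2) (hα : α x = α y) {μ : K} (hμ : μ ≠ 0)
    (F : Matrix (Fin N → Fin b) (Fin N → Fin b) K)
    (hF : (kpow A N)ᵀ * F * kpow A N = (μ * μ) • F) (r : ℕ) (z : Fin r → (Fin N → Fin b) → K)
    (hz : ∀ i, kpow A N *ᵥ z i = μ • z i) (L : ℕ) :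
    ((Matrix.of fun i j => z i ⬝ᵥ (F *ᵥ z j)).rank : ℝ)
      ≤ 2 ^ L * ((b : ℝ) - 1) ^ N
        + 2 / (((L : ℝ) + 1) * Real.sqrt (L + 1)) * alg (kpow A N) μ := by
  have hxy : x ≠ y := by
    rintro rfl
    omega
  have h1 := (h.kpow N).gram hμ F hF r z hz
  have h2 := words_le (N := N) hs hα μ
  have h3 : ∑ f ∈ univ.filter (fun f : Fin N → Fin b => ∏ i, α (f i) = μ), DD (∑ i, s (f i))
      = 2 * ((univ.filter fun f : Fin N → Fin b => ∑ i, s (f i) = 0 ∧ ∏ i, α (f i) = μ).card : ℝ)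
        - ((univ.filter fun f : Fin N → Fin b => ∑ i, s (f i) = 2 ∧ ∏ i, α (f i) = μ).card : ℝ)
        - ((univ.filter fun f : Fin N → Fin b => ∑ i, s (f i) = -2 ∧ ∏ i, α (f i) = μ).card : ℝ)
        := by
    have h4 : ∀ t : ℤ, ∑ f ∈ univ.filter (fun f : Fin N → Fin b => ∏ i, α (f i) = μ),
        (if ∑ i, s (f i) = t then (1 : ℝ) else 0)
        = ((univ.filter fun f : Fin N → Fin b => ∑ i, s (f i) = t ∧ ∏ i, α (f i) = μ).card : ℝ) := by
      intro t
      rw [Finset.sum_boole, Finset.filter_filter]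
      congr 2
      ext f
      simp only [mem_filter, mem_univ, true_and]
      tauto
    unfold DD
    rw [Finset.sum_sub_distrib, Finset.sum_sub_distrib, ← Finset.mul_sum, h4, h4, h4]
  rw [h3] at h2
  have h4 : alg (kpow A N) μ = (univ.filter fun f : Fin N → Fin b => ∏ i, α (f i) = μ).card :=
    (h.kpow N).alg_eq μ
  set C : ℝ := 4 / (((L : ℝ) + 1) * Real.sqrt (L + 1)) with hC
  have hC0 : 0 ≤ C := by
    have : (0 : ℝ) ≤ L := Nat.cast_nonneg L
    positivity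
  have h5 : ∑ f ∈ univ.filter (fun f : Fin N → Fin b => ∏ i, α (f i) = μ), gg2 (ll x y f)
      ≤ 2 * ((univ.filter fun f : Fin N → Fin b => ll x y f < L).card : ℝ)
        + C * alg (kpow A N) μ := by
    have h6 : ∀ f ∈ univ.filter (fun f : Fin N → Fin b => ∏ i, α (f i) = μ), gg2 (ll x y f)
        ≤ 2 * (if ll x y f < L then (1 : ℝ) else 0) + C := by
      intro f _
      split_ifs with hf
      · have := gg2_le_two (ll x y f)
        linarith
      · have := gg2_le L (ll x y f) (by omega)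
        linarith
    refine (Finset.sum_le_sum h6).trans ?_
    rw [Finset.sum_add_distrib, ← Finset.mul_sum, Finset.sum_const, nsmul_eq_mul, ← h4,
      mul_comm (alg (kpow A N) μ : ℝ) C]
    have h7 : ∑ f ∈ univ.filter (fun f : Fin N → Fin b => ∏ i, α (f i) = μ),
        (if ll x y f < L then (1 : ℝ) else 0)
        ≤ ((univ.filter fun f : Fin N → Fin b => ll x y f < L).card : ℝ) := by
      rw [Finset.sum_boole, Finset.filter_filter]
      have : (univ.filter fun f : Fin N → Fin b => ∏ i, α (f i) = μ ∧ ll x y f < L).card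
          ≤ (univ.filter fun f : Fin N → Fin b => ll x y f < L).card := by
        apply Finset.card_le_card
        intro f hf
        rw [mem_filter] at hf ⊢
        exact ⟨mem_univ _, hf.2.2⟩
      exact_mod_cast this
    linarith
  have h6 := few_le (N := N) hxy L
  have h7 : (2 * ((Matrix.of fun i j => z i ⬝ᵥ (F *ᵥ z j)).rank : ℝ)
      + ((univ.filter fun f : Fin N → Fin b => ∑ i, s (f i) = 2 ∧ ∏ i, α (f i) = μ).card : ℝ)
      + ((univ.filter fun f : Fin N → Fin b => ∑ i, s (f i) = -2 ∧ ∏ i, α (f i) = μ).card : ℝ))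
      ≤ 2 * ((univ.filter fun f : Fin N → Fin b => ∑ i, s (f i) = 0 ∧ ∏ i, α (f i) = μ).card : ℝ)
      := by
    exact_mod_cast h1
  have h8 : 2 / (((L : ℝ) + 1) * Real.sqrt (L + 1)) = C / 2 := by
    rw [hC]
    ring
  rw [h8]
  linarith

theorem numerical_bound {b : ℕ} (A P : Matrix (Fin b) (Fin b) K) (q : K) (hP : P.det ≠ 0)
    (hq : q ≠ 0) (h : Aᵀ * P * A = q • P) (hs : ¬ Module.End.IsSemisimple (Matrix.toLin' A))
    (n : ℕ) (hn : 1 ≤ n) (F : Matrix (Fin (2 * n) → Fin b) (Fin (2 * n) → Fin b) K)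
    (hF : (kpow A (2 * n))ᵀ * F * kpow A (2 * n) = q ^ (2 * n) • F)
    (r : ℕ) (z : Fin r → (Fin (2 * n) → Fin b) → K)
    (hz : ∀ i, kpow A (2 * n) *ᵥ z i = q ^ n • z i) :
    ((Matrix.of fun i j => z i ⬝ᵥ (F *ᵥ z j)).rank : ℝ)
      ≤ (2 * (b / n) * Real.sqrt (b / n) + ((n : ℝ) + 1) ^ b * (1 - 1 / (b : ℝ)) ^ n)
        * alg (kpow A (2 * n)) (q ^ n) := by
  have hA : A.det ≠ 0 := by
    have h1 := congrArg Matrix.det h
    rw [Matrix.det_mul, Matrix.det_mul, Matrix.det_smul] at h1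
    intro h0
    rw [h0, mul_zero] at h1
    exact mul_ne_zero (pow_ne_zero _ hq) hP h1.symm
  set X : ℝ := (alg (kpow A (2 * n)) (q ^ n) : ℝ) with hx
  obtain ⟨s, α, had⟩ := exists_ad A hA
  obtain ⟨x, y, hsx, hαx⟩ := had.exists_pair hs
  have hb : 2 ≤ b := by
    by_contra hb
    have h1 : x = y := by
      apply Fin.ext
      have := x.2
      have := y.2
      omega
    rw [h1] at hsx
    omega
  have hF' : (kpow A (2 * n))ᵀ * F * kpow A (2 * n) = (q ^ n * q ^ n) • F := by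
    rw [hF]
    congr 1
    ring
  have hbd := rank_le_words had hsx hαx (pow_ne_zero n hq) _ hF' r z hz (n / (b - 1))
  rw [← hx] at hbd
  have hx0 : 0 ≤ X := Nat.cast_nonneg _
  have hb2 : (2 : ℝ) ≤ b := by exact_mod_cast hb
  have hb1 : (0 : ℝ) < (b : ℝ) - 1 := by linarith
  have hn0 : (0 : ℝ) < n := by exact_mod_cast hn
  have hlow : (b : ℝ) ^ (2 * n) ≤ ((n : ℝ) + 1) ^ b * X := by
    have := alg_lower A P q hA hP h n
    rw [hx]
    exact_mod_cast this
  -- first term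
  have hcast : ((b - 1 : ℕ) : ℝ) = (b : ℝ) - 1 := by
    rw [Nat.cast_sub (by omega)]; simp
  have t1 : (2 : ℝ) ^ (n / (b - 1)) * ((b : ℝ) - 1) ^ (2 * n)
      ≤ ((n : ℝ) + 1) ^ b * (1 - 1 / (b : ℝ)) ^ n * X := by
    have s1 : (2 : ℝ) ≤ ((b : ℝ) / ((b : ℝ) - 1)) ^ (b - 1) := by
      have e : (b : ℝ) / ((b : ℝ) - 1) = 1 + 1 / ((b : ℝ) - 1) := by field_simp; ring
      rw [e]
      have := one_add_mul_le_pow (a := 1 / ((b : ℝ) - 1)) (by
        have : 0 < 1 / ((b : ℝ) - 1) := by positivity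
        linarith) (b - 1)
      rw [hcast, mul_one_div_cancel hb1.ne'] at this
      linarith
    have s2 : (2 : ℝ) ^ (n / (b - 1)) ≤ ((b : ℝ) / ((b : ℝ) - 1)) ^ n := by
      have hr : 1 ≤ (b : ℝ) / ((b : ℝ) - 1) := by
        rw [le_div_iff₀ hb1]; linarith
      calc (2 : ℝ) ^ (n / (b - 1)) ≤ (((b : ℝ) / ((b : ℝ) - 1)) ^ (b - 1)) ^ (n / (b - 1)) :=
            pow_le_pow_left₀ (by norm_num) s1 _
        _ = ((b : ℝ) / ((b : ℝ) - 1)) ^ ((b - 1) * (n / (b - 1))) := by rw [← pow_mul]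
        _ ≤ ((b : ℝ) / ((b : ℝ) - 1)) ^ n := pow_le_pow_right₀ hr (Nat.mul_div_le n (b - 1))
    calc (2 : ℝ) ^ (n / (b - 1)) * ((b : ℝ) - 1) ^ (2 * n)
        ≤ ((b : ℝ) / ((b : ℝ) - 1)) ^ n * ((b : ℝ) - 1) ^ (2 * n) :=
          mul_le_mul_of_nonneg_right s2 (by positivity)
      _ = (1 - 1 / (b : ℝ)) ^ n * (b : ℝ) ^ (2 * n) := by
          rw [pow_mul, pow_mul, ← mul_pow, ← mul_pow]
          congr 1
          field_simp
      _ ≤ (1 - 1 / (b : ℝ)) ^ n * (((n : ℝ) + 1) ^ b * X) := by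
          apply mul_le_mul_of_nonneg_left hlow
          apply pow_nonneg
          rw [sub_nonneg, div_le_one (by linarith)]
          linarith
      _ = _ := by ring
  have t2 : 2 / ((((n / (b - 1) : ℕ) : ℝ) + 1) * Real.sqrt (((n / (b - 1) : ℕ) : ℝ) + 1))
      ≤ 2 * (b / n) * Real.sqrt (b / n) := by
    have hL : (n : ℝ) / b ≤ ((n / (b - 1) : ℕ) : ℝ) + 1 := by
      have s3 : n < (b - 1) * (n / (b - 1) + 1) := Nat.lt_mul_div_succ n (by omega)
      have s4 : (n : ℝ) ≤ ((b : ℝ) - 1) * (((n / (b - 1) : ℕ) : ℝ) + 1) := by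
        rw [← hcast]
        exact_mod_cast s3.le
      rw [div_le_iff₀ (by linarith)]
      have s5 : (0 : ℝ) ≤ ((n / (b - 1) : ℕ) : ℝ) + 1 := by positivity
      nlinarith
    have hnb : (0 : ℝ) < (n : ℝ) / b := by
      have : (0 : ℝ) < (b : ℝ) := by linarith
      positivity
    have hsq : 0 < Real.sqrt ((n : ℝ) / b) := Real.sqrt_pos.mpr hnb
    have s6 : Real.sqrt (b / n) = 1 / Real.sqrt (n / b) := by
      rw [one_div, ← Real.sqrt_inv, inv_div]
    have s7 : (b : ℝ) / n = 1 / (n / b) := by rw [one_div, inv_div]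
    have s8 : 2 * ((b : ℝ) / n) * Real.sqrt (b / n) = 2 / ((n / b) * Real.sqrt (n / b)) := by
      rw [s6, s7]
      field_simp
    rw [s8]
    apply div_le_div_of_nonneg_left (by norm_num) (by positivity)
    exact mul_le_mul hL (Real.sqrt_le_sqrt hL) hsq.le (by positivity)
  calc ((Matrix.of fun i j => z i ⬝ᵥ (F *ᵥ z j)).rank : ℝ) ≤ _ := hbd
    _ ≤ ((n : ℝ) + 1) ^ b * (1 - 1 / (b : ℝ)) ^ n * X
        + (2 * (b / n) * Real.sqrt (b / n)) * X :=
        add_le_add t1 (mul_le_mul_of_nonneg_right t2 hx0)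
    _ = _ := by ring

theorem numerical_eq {b : ℕ} (A : Matrix (Fin b) (Fin b) K) (q : K)
    (hq : q ≠ 0) (hs : Module.End.IsSemisimple (Matrix.toLin' A))
    (n : ℕ) (F : Matrix (Fin (2 * n) → Fin b) (Fin (2 * n) → Fin b) K) (hdet : F.det ≠ 0)
    (hF : (kpow A (2 * n))ᵀ * F * kpow A (2 * n) = q ^ (2 * n) • F) :
    ∃ (r : ℕ) (z : Fin r → (Fin (2 * n) → Fin b) → K),
      (∀ i, kpow A (2 * n) *ᵥ z i = q ^ n • z i) ∧
      (Matrix.of fun i j => z i ⬝ᵥ (F *ᵥ z j)).rank = alg (kpow A (2 * n)) (q ^ n) := by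
  apply semi_gram (kpow A (2 * n)) F (q ^ n) (pow_ne_zero n hq)
  · rw [hF]
    congr 1
    ring
  · exact hdet
  · exact ss_kpow A hs _

end

end Pool.Agent.NL18
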