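import Pool.Agent.NL18.Coord

/-!
The rank of the Gram matrix of a family of eigenvectors, in an adapted basis.
-/

namespace Pool.Agent.NL18

open Module Matrix Pool.Agent.FS77

section
variable {K : Type*} [Field K] [CharZero K] {ι : Type*} [Fintype ι] [DecidableEq ι]
  {s : ι → ℤ} {α : ι → K} {N E : Matrix ι ι K} {μ : K}

omit [CharZero K] in
theorem diag_mulVec_iff (x : ι → K) :
    Matrix.diagonal α *ᵥ x = μ • x ↔ ∀ i, α i ≠ μ → x i = 0 := by
  constructor
  · intro h i hi
    have h1 := congrFun h i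
    rw [Matrix.mulVec_diagonal, Pi.smul_apply, smul_eq_mul] at h1
    have h2 : (α i - μ) * x i = 0 := by rw [sub_mul, h1, sub_self]
    rcases mul_eq_zero.mp h2 with h3 | h3
    · exact absurd (sub_eq_zero.mp h3) hi
    · exact h3
  · intro h
    funext i
    rw [Matrix.mulVec_diagonal, Pi.smul_apply, smul_eq_mul]
    by_cases hi : α i = μ
    · rw [hi]
    · rw [h i hi, mul_zero, mul_zero]

/-- the eigenvectors of `diag α * exp N` -/
theorem eig_iff (hc : Commute (Matrix.diagonal α) N) (hn : IsNilpotent N) (hμ : μ ≠ 0)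
    (x : ι → K) (hx : (Matrix.diagonal α * IsNilpotent.exp N) *ᵥ x = μ • x) :
    (∀ i, α i ≠ μ → x i = 0) ∧ N *ᵥ x = 0 := by
  obtain ⟨Z, hZ, hNZ, hZc⟩ := exp_sub_one N hn
  have e1 : IsNilpotent.exp N = 1 + N * Z := by rw [← hNZ]; abel
  have c1 : Commute (Matrix.diagonal α) Z := hZc _ hc
  have c2 : Commute (Matrix.diagonal α) (N * Z) := hc.mul_right c1
  have c3 : Commute (Matrix.diagonal α) (IsNilpotent.exp N) := by
    rw [e1]
    exact (Commute.one_right _).add_right c2
  have c4 : Commute N Z := hZc N (Commute.refl N)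
  have hB : Commute (Matrix.diagonal α * IsNilpotent.exp N) (Matrix.diagonal α) :=
    (Commute.refl _).mul_left c3.symm
  have hD : IsNilpotent (Matrix.diagonal α * IsNilpotent.exp N - Matrix.diagonal α) := by
    have e2 : Matrix.diagonal α * IsNilpotent.exp N - Matrix.diagonal α
        = Matrix.diagonal α * (IsNilpotent.exp N - 1) := by
      rw [mul_sub, mul_one]
    rw [e2, hNZ]
    apply c2.isNilpotent_mul_left
    exact c4.isNilpotent_mul_right hn
  have h1 : x ∈ Module.End.maxGenEigenspace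
      (Matrix.toLin' (Matrix.diagonal α * IsNilpotent.exp N)) μ := by
    apply Module.End.genEigenspace_le_maximal _ _ 1
    rw [Module.End.mem_genEigenspace_nat]
    simp only [pow_one, LinearMap.mem_ker, LinearMap.sub_apply, LinearMap.smul_apply,
      Module.End.one_apply, Matrix.toLin'_apply, hx, sub_self]
  rw [maxGen_eq hB hD] at h1
  have h2 : ∀ i, α i ≠ μ → x i = 0 := h1
  refine ⟨h2, ?_⟩
  have h3 := (diag_mulVec_iff (μ := μ) x).mpr h2
  have h4 : (Matrix.diagonal α * IsNilpotent.exp N) *ᵥ x = μ • (IsNilpotent.exp N *ᵥ x) := by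
    rw [c3.eq, ← Matrix.mulVec_mulVec, h3, Matrix.mulVec_smul]
  rw [h4] at hx
  have h5 : IsNilpotent.exp N *ᵥ x = x := by
    have := congrArg (fun y => μ⁻¹ • y) hx
    simpa only [smul_smul, inv_mul_cancel₀ hμ, one_smul] using this
  rw [e1, Matrix.add_mulVec, Matrix.one_mulVec, add_eq_left, c4.eq, ← Matrix.mulVec_mulVec] at h5
  obtain ⟨u, hu⟩ := hZ
  have h6 := congrArg (fun y => (↑u⁻¹ : Matrix ι ι K) *ᵥ y) h5
  simp only [Matrix.mulVec_mulVec, Matrix.mulVec_zero] at h6
  rw [← hu, ← Matrix.mul_assoc, Units.inv_mul, Matrix.one_mul] at h6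
  exact h6

/-- on the eigenspace of `diag α`, the image of `N` is contained in the image of `B - μ` -/
theorem image_N (hc : Commute (Matrix.diagonal α) N) (hn : IsNilpotent N) (hμ : μ ≠ 0)
    (u : ι → K) (hu : ∀ i, α i ≠ μ → u i = 0) :
    ∃ w, (Matrix.diagonal α * IsNilpotent.exp N) *ᵥ w = μ • w + N *ᵥ u := by
  obtain ⟨Z, hZ, hNZ, hZc⟩ := exp_sub_one N hn
  have e1 : IsNilpotent.exp N = 1 + N * Z := by rw [← hNZ]; abel
  have c1 : Commute (Matrix.diagonal α) Z := hZc _ hc
  have c2 : Commute (Matrix.diagonal α) (N * Z) := hc.mul_right c1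
  have c3 : Commute (Matrix.diagonal α) (IsNilpotent.exp N) := by
    rw [e1]
    exact (Commute.one_right _).add_right c2
  obtain ⟨v, hv⟩ := hZ
  have c5 : Commute (Matrix.diagonal α) (↑v⁻¹ : Matrix ι ι K) := by
    have : Commute (Matrix.diagonal α) (v : Matrix ι ι K) := by rw [hv]; exact c1
    exact this.units_inv_right
  have h3 := (diag_mulVec_iff (μ := μ) u).mpr hu
  refine ⟨μ⁻¹ • ((↑v⁻¹ : Matrix ι ι K) *ᵥ u), ?_⟩
  have h4 : Matrix.diagonal α *ᵥ (μ⁻¹ • ((↑v⁻¹ : Matrix ι ι K) *ᵥ u))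
      = (↑v⁻¹ : Matrix ι ι K) *ᵥ u := by
    rw [Matrix.mulVec_smul, Matrix.mulVec_mulVec, c5.eq, ← Matrix.mulVec_mulVec, h3,
      Matrix.mulVec_smul, smul_smul, inv_mul_cancel₀ hμ, one_smul]
  rw [c3.eq, ← Matrix.mulVec_mulVec, h4, e1, Matrix.add_mulVec, Matrix.one_mulVec, smul_smul,
    mul_inv_cancel₀ hμ, one_smul, Matrix.mulVec_mulVec, ← hv, Matrix.mul_assoc, Units.mul_inv,
    Matrix.mul_one]

omit [CharZero K] in
/-- the form vanishes on the image of `B - μ` -/
theorem form_zero {B F : Matrix ι ι K} (hF : Bᵀ * F * B = (μ * μ) • F) (hμ : μ ≠ 0)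
    (y : ι → K) (hy : B *ᵥ y = μ • y) (w v : ι → K) (hw : B *ᵥ w = μ • w + v) :
    y ⬝ᵥ (F *ᵥ v) = 0 := by
  have h1 : (B *ᵥ y) ⬝ᵥ (F *ᵥ (B *ᵥ w)) = μ * μ * (y ⬝ᵥ (F *ᵥ w)) := by
    have e1 : (B *ᵥ y) ⬝ᵥ (F *ᵥ (B *ᵥ w)) = y ⬝ᵥ ((Bᵀ * F * B) *ᵥ w) := by
      rw [← Matrix.mulVec_mulVec, ← Matrix.mulVec_mulVec, Matrix.dotProduct_mulVec y Bᵀ,
        Matrix.vecMul_transpose]
    rw [e1, hF, Matrix.smul_mulVec, dotProduct_smul, smul_eq_mul]
  rw [hy, hw, Matrix.mulVec_add, dotProduct_add, Matrix.mulVec_smul, dotProduct_smul,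
    smul_dotProduct, smul_dotProduct, smul_eq_mul, smul_eq_mul, smul_eq_mul] at h1
  have h2 : μ * (y ⬝ᵥ (F *ᵥ v)) = 0 := by linear_combination h1
  exact (mul_eq_zero.mp h2).resolve_left hμ

/-- the decomposition of a vector killed by `N` -/
theorem ker_decomp (hR : Rel s N E) (hc : Commute (Matrix.diagonal α) N) (x : ι → K)
    (hx : ∀ i, α i ≠ μ → x i = 0) (hNx : N *ᵥ x = 0) :
    ∃ x0 u : ι → K, x = x0 + N *ᵥ u ∧ (∀ i, ¬ (s i = 0 ∧ α i = μ) → x0 i = 0) ∧ N *ᵥ x0 = 0 ∧
      (∀ i, α i ≠ μ → u i = 0) := by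
  classical
  have hent : ∀ i j, N i j ≠ 0 → s i = s j - 2 := by
    intro i j h
    by_contra h'
    exact h (hR.N_entry i j h')
  set v : ι → K := fun i => if s i = 0 then 0 else x i / (s i : K) with hv
  have hNv : N *ᵥ v = 0 := by
    funext i
    rw [Pi.zero_apply]
    by_cases hi : s i = -2
    · simp only [Matrix.mulVec, dotProduct]
      apply Finset.sum_eq_zero
      intro j _
      by_cases hij : N i j = 0
      · rw [hij, zero_mul]
      · have : s j = 0 := by have := hent i j hij; omega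
        simp only [hv, this, if_true, mul_zero]
    · have h1 : (N *ᵥ v) i = ((s i + 2 : ℤ) : K)⁻¹ * (N *ᵥ x) i := by
        simp only [Matrix.mulVec, dotProduct, Finset.mul_sum]
        refine Finset.sum_congr rfl fun j _ => ?_
        by_cases hij : N i j = 0
        · rw [hij, zero_mul, zero_mul, mul_zero]
        · have h2 : s j = s i + 2 := by have := hent i j hij; omega
          have h3 : s i + 2 ≠ 0 := by omega
          simp only [hv, h2, h3, if_false]
          rw [div_eq_mul_inv]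
          ring
      rw [h1, hNx, Pi.zero_apply, mul_zero]
  have hHv : ∀ i, (s i : K) * v i = if s i = 0 then 0 else x i := by
    intro i
    simp only [hv]
    split_ifs with h
    · rw [mul_zero]
    · have : (s i : K) ≠ 0 := by exact_mod_cast h
      field_simp
  have hEv : N *ᵥ (-(E *ᵥ v)) = fun i => if s i = 0 then 0 else x i := by
    have h1 := congrArg (fun A => A *ᵥ v) hR.hH
    simp only [Matrix.sub_mulVec, ← Matrix.mulVec_mulVec, hNv, Matrix.mulVec_zero, zero_sub] at h1
    rw [Matrix.mulVec_neg, h1]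
    funext i
    rw [Matrix.mulVec_diagonal, hHv]
  refine ⟨fun i => if s i = 0 then x i else 0, pr α μ (-(E *ᵥ v)), ?_, ?_, ?_, ?_⟩
  · have h1 : N *ᵥ (pr α μ (-(E *ᵥ v))) = pr α μ (N *ᵥ (-(E *ᵥ v))) := by
      have := pr_comm (Φ := N) (α := α) hc.symm μ (-(E *ᵥ v))
      rw [Matrix.toLin'_apply, Matrix.toLin'_apply] at this
      exact this.symm
    rw [h1, hEv]
    funext i
    simp only [pr, LinearMap.coe_mk, AddHom.coe_mk, Pi.add_apply]
    by_cases h2 : α i = μ
    · simp only [h2, if_true]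
      split_ifs
      · rw [add_zero]
      · rw [zero_add]
    · simp only [h2, if_false, hx i h2, add_zero, ite_self]
  · intro i hi
    simp only
    split_ifs with h
    · apply hx
      intro h2
      exact hi ⟨h, h2⟩
    · rfl
  · funext i
    rw [Pi.zero_apply]
    by_cases hi : s i = -2
    · have h1 : (N *ᵥ (fun i => if s i = 0 then x i else 0)) i = (N *ᵥ x) i := by
        simp only [Matrix.mulVec, dotProduct]
        refine Finset.sum_congr rfl fun j _ => ?_
        by_cases hij : N i j = 0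
        · rw [hij, zero_mul, zero_mul]
        · have : s j = 0 := by have := hent i j hij; omega
          rw [if_pos this]
      rw [h1, hNx, Pi.zero_apply]
    · simp only [Matrix.mulVec, dotProduct]
      apply Finset.sum_eq_zero
      intro j _
      by_cases hij : N i j = 0
      · rw [hij, zero_mul]
      · have : s j ≠ 0 := by have := hent i j hij; omega
        rw [if_neg this, mul_zero]
  · intro i hi
    simp only [pr, LinearMap.coe_mk, AddHom.coe_mk, hi, if_false]

/-- the space of the invariant vectors -/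
def E0 (s : ι → ℤ) (α : ι → K) (N : Matrix ι ι K) (μ : K) : Submodule K (ι → K) :=
  supp (fun i => s i = 0 ∧ α i = μ) ⊓ LinearMap.ker (Matrix.toLin' N)

/-- the Gram matrix of eigenvectors has rank at most the number of blocks of size one -/
theorem gram_le (hR : Rel s N E) (hc : Commute (Matrix.diagonal α) N) (hn : IsNilpotent N)
    (hμ : μ ≠ 0) (B : Matrix ι ι K) (hB : B = Matrix.diagonal α * IsNilpotent.exp N)
    (F : Matrix ι ι K) (hF : Bᵀ * F * B = (μ * μ) • F) (r : ℕ) (z : Fin r → ι → K)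
    (hz : ∀ i, B *ᵥ z i = μ • z i) :
    (Matrix.of fun i j => z i ⬝ᵥ (F *ᵥ z j)).rank ≤ finrank K (E0 s α N μ) := by
  have h0 : ∀ j, ∃ x0 u : ι → K, z j = x0 + N *ᵥ u ∧
      (∀ i, ¬ (s i = 0 ∧ α i = μ) → x0 i = 0) ∧ N *ᵥ x0 = 0 ∧ (∀ i, α i ≠ μ → u i = 0) := by
    intro j
    obtain ⟨h1, h2⟩ := eig_iff hc hn hμ (z j) (by rw [← hB]; exact hz j)
    exact ker_decomp hR hc (z j) h1 h2
  choose x0 u h1 h2 h3 h4 using h0
  have hG : (Matrix.of fun i j => z i ⬝ᵥ (F *ᵥ z j))
      = (Matrix.of z * F) * (Matrix.of fun i j => x0 j i) := by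
    ext i j
    have e1 : z i ⬝ᵥ (F *ᵥ z j) = z i ⬝ᵥ (F *ᵥ x0 j) := by
      obtain ⟨w, hw⟩ := image_N hc hn hμ (u j) (h4 j)
      have e2 := form_zero hF hμ (z i) (hz i) w (N *ᵥ u j) (by rw [hB]; exact hw)
      rw [h1 j, Matrix.mulVec_add, dotProduct_add, e2, add_zero]
    rw [Matrix.of_apply, e1, Matrix.dotProduct_mulVec]
    rfl
  rw [hG]
  refine (Matrix.rank_mul_le_right _ _).trans ?_
  rw [Matrix.rank_eq_finrank_span_cols]
  apply Submodule.finrank_mono
  rw [Submodule.span_le]
  rintro _ ⟨j, rfl⟩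
  refine ⟨h2 j, ?_⟩
  rw [SetLike.mem_coe, LinearMap.mem_ker, Matrix.toLin'_apply]
  exact h3 j

open Classical in
theorem finrank_E0 (hR : Rel s N E) (hc : Commute (Matrix.diagonal α) N) :
    2 * finrank K (E0 s α N μ) + (Finset.univ.filter fun i => s i = 2 ∧ α i = μ).card
      + (Finset.univ.filter fun i => s i = -2 ∧ α i = μ).card
      ≤ 2 * (Finset.univ.filter fun i => s i = 0 ∧ α i = μ).card := by
  have hent : ∀ i j, N i j ≠ 0 → s i = s j - 2 := by
    intro i j h
    by_contra h'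
    exact h (hR.N_entry i j h')
  have hα : ∀ i j, N i j ≠ 0 → α i = α j := by
    intro i j h
    by_contra h'
    exact h (comm_entry hc.symm i j h')
  have hmap : ∀ t : ℤ, ∀ x ∈ supp (K := K) (fun i => s i = t ∧ α i = μ),
      Matrix.toLin' N x ∈ supp (K := K) (fun i => s i = t - 2 ∧ α i = μ) := by
    intro t x hx i hi
    rw [Matrix.toLin'_apply]
    simp only [Matrix.mulVec, dotProduct]
    apply Finset.sum_eq_zero
    intro j _
    by_cases hij : N i j = 0
    · rw [hij, zero_mul]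
    · rw [hx j, mul_zero]
      rintro ⟨h1, h2⟩
      exact hi ⟨by have := hent i j hij; omega, by rw [hα i j hij, h2]⟩
  have hsl := hR.sl2
  have hbij := hsl.bij 2
  have hHH : ∀ t : ℤ, ∀ x ∈ supp (K := K) (fun i => s i = t ∧ α i = μ),
      HH s x = (t : K) • x := by
    intro t x hx
    rw [HH_eig]
    intro i hi
    exact hx i (fun h => hi h.1)
  -- first map
  let f : supp (K := K) (fun i => s i = 0 ∧ α i = μ) →ₗ[K]
      supp (K := K) (fun i => s i = -2 ∧ α i = μ) :=
    (Matrix.toLin' N).restrict (fun x hx => by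
      have := hmap 0 x hx
      simpa using this)
  have hf : Function.Surjective f := by
    rintro ⟨y, hy⟩
    obtain ⟨x, hx1, hx2⟩ := hbij.2 y (by
      have := hHH (-2) y hy
      simpa using this)
    have hx3 : ∀ i, s i ≠ 2 → x i = 0 := (HH_eig s 2 x).mp (by simpa using hx1)
    set x' : ι → K := pr α μ x with hx'
    have hmem : x' ∈ supp (K := K) (fun i => s i = 2 ∧ α i = μ) := by
      intro i hi
      simp only [hx', pr, LinearMap.coe_mk, AddHom.coe_mk]
      split_ifs with h
      · exact hx3 i (fun h2 => hi ⟨h2, h⟩)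
      · rfl
    refine ⟨⟨Matrix.toLin' N x', by simpa using hmap 2 x' hmem⟩, ?_⟩
    apply Subtype.ext
    change Matrix.toLin' N (Matrix.toLin' N x') = y
    rw [hx', ← pr_comm hc.symm, ← pr_comm hc.symm]
    have : Matrix.toLin' N (Matrix.toLin' N x) = y := by
      rw [← hx2, pow_two, Module.End.mul_apply]
    rw [this]
    funext i
    simp only [pr, LinearMap.coe_mk, AddHom.coe_mk]
    split_ifs with h
    · rfl
    · exact (hy i (fun h2 => h h2.2)).symm
  have hker : finrank K (LinearMap.ker f) = finrank K (E0 s α N μ) := by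
    have e : (LinearMap.ker f).map (supp (K := K) (fun i => s i = 0 ∧ α i = μ)).subtype
        = E0 s α N μ := by
      ext x
      constructor
      · rintro ⟨y, hy, rfl⟩
        refine ⟨y.2, ?_⟩
        rw [SetLike.mem_coe, LinearMap.mem_ker] at hy ⊢
        exact congrArg Subtype.val hy
      · rintro ⟨h1, h2⟩
        refine ⟨⟨x, h1⟩, ?_, rfl⟩
        rw [SetLike.mem_coe, LinearMap.mem_ker] at h2 ⊢
        exact Subtype.ext h2
    rw [← e]
    exact (LinearEquiv.finrank_eq (Submodule.equivMapOfInjective _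
      (Submodule.injective_subtype _) _))
  have hrn := LinearMap.finrank_range_add_finrank_ker f
  rw [LinearMap.range_eq_top.mpr hf, finrank_top, hker, finrank_supp, finrank_supp] at hrn
  -- second map
  have h22 : (Finset.univ.filter fun i => s i = 2 ∧ α i = μ).card
      ≤ (Finset.univ.filter fun i => s i = -2 ∧ α i = μ).card := by
    rw [← finrank_supp (K := K), ← finrank_supp (K := K)]
    let g : supp (K := K) (fun i => s i = 2 ∧ α i = μ) →ₗ[K]
        supp (K := K) (fun i => s i = -2 ∧ α i = μ) :=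
      ((Matrix.toLin' N) ^ 2).restrict (fun x hx => by
        have h1 := hmap 0 _ (by simpa using hmap 2 x hx)
        rw [pow_two, Module.End.mul_apply]
        simpa using h1)
    refine LinearMap.finrank_le_finrank_of_injective (f := g) ?_
    rw [← LinearMap.ker_eq_bot, LinearMap.ker_eq_bot']
    rintro ⟨x, hx⟩ h0
    apply Subtype.ext
    refine hbij.1 x ?_ (congrArg Subtype.val h0)
    have := hHH 2 x hx
    simpa using this
  omega

end

end Pool.Agent.NL18
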