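import Pool.Agent.NL18.Gram

/-!
Passage to an adapted basis.
-/

namespace Pool.Agent.NL18

open Module Matrix Pool.Agent.FS77

section
variable {K : Type*} [Field K] [CharZero K] {ι : Type*} [Fintype ι] [DecidableEq ι]
  {s : ι → ℤ} {α : ι → K}

omit [CharZero K] in
/-- conjugation as an algebra isomorphism -/
theorem exists_conj (P Q : Matrix ι ι K) (hPQ : P * Q = 1) :
    ∃ φ : Matrix ι ι K →ₐ[K] Matrix ι ι K, ∀ X, φ X = Q * X * P := by
  have hQP : Q * P = 1 := mul_eq_one_comm.mp hPQ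
  refine ⟨AlgHom.ofLinearMap
    { toFun := fun X => Q * X * P
      map_add' := fun X Y => by rw [Matrix.mul_add, Matrix.add_mul]
      map_smul' := fun c X => by simp }
    (by change Q * 1 * P = 1; rw [Matrix.mul_one, hQP])
    (by
      intro X Y
      change Q * (X * Y) * P = (Q * X * P) * (Q * Y * P)
      simp only [Matrix.mul_assoc]
      rw [← Matrix.mul_assoc P Q, hPQ, Matrix.one_mul]), fun X => rfl⟩

/-- the data in the adapted basis -/
theorem Ad.coord {A : Matrix ι ι K} (h : Ad A s α) :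
    ∃ P Q N E : Matrix ι ι K, P * Q = 1 ∧ Rel s N E ∧ Commute (Matrix.diagonal α) N ∧
      IsNilpotent N ∧ Q * A * P = Matrix.diagonal α * IsNilpotent.exp N := by
  obtain ⟨P, Q, Ψ, N, E, H, hPQ, hΨ, hH, hc, hn, hA, h1, h2, h3⟩ := h
  have hQP : Q * P = 1 := mul_eq_one_comm.mp hPQ
  obtain ⟨φ, hφ⟩ := exists_conj P Q hPQ
  have cQ : ∀ A : Matrix ι ι K, Q * (P * A) = A := by
    intro A
    rw [← Matrix.mul_assoc, hQP, Matrix.one_mul]
  have e1 : φ H = Matrix.diagonal fun i => (s i : K) := by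
    rw [hφ, hH]
    simp only [Matrix.mul_assoc, hQP, Matrix.mul_one, cQ]
  have e2 : φ Ψ = Matrix.diagonal α := by
    rw [hφ, hΨ]
    simp only [Matrix.mul_assoc, hQP, Matrix.mul_one, cQ]
  refine ⟨P, Q, φ N, φ E, hPQ, ⟨?_, ?_, ?_⟩, ?_, hn.map φ, ?_⟩
  · rw [← e1, ← map_mul, ← map_mul, h1, map_sub, map_smul]
  · rw [← e1, ← map_mul, ← map_mul, h2, map_add, map_smul]
  · rw [← e1, ← map_mul, ← map_mul, ← map_sub, h3]
  · rw [← e2]
    exact hc.map φ
  · rw [← hφ, hA, map_mul, e2, IsNilpotent.map_exp hn φ]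

open Classical in
theorem Ad.gram {B : Matrix ι ι K} (h : Ad B s α) {μ : K} (hμ : μ ≠ 0)
    (F : Matrix ι ι K) (hF : Bᵀ * F * B = (μ * μ) • F) (r : ℕ) (z : Fin r → ι → K)
    (hz : ∀ i, B *ᵥ z i = μ • z i) :
    2 * (Matrix.of fun i j => z i ⬝ᵥ (F *ᵥ z j)).rank
      + (Finset.univ.filter fun i => s i = 2 ∧ α i = μ).card
      + (Finset.univ.filter fun i => s i = -2 ∧ α i = μ).card
      ≤ 2 * (Finset.univ.filter fun i => s i = 0 ∧ α i = μ).card := by
  obtain ⟨P, Q, N, E, hPQ, hR, hc, hn, hB⟩ := h.coord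
  have hQP : Q * P = 1 := mul_eq_one_comm.mp hPQ
  have h1 := gram_le hR hc hn hμ (Q * B * P) hB (Pᵀ * F * P) (by
    have e1 : (Q * B * P)ᵀ * (Pᵀ * F * P) * (Q * B * P)
        = Pᵀ * (Bᵀ * ((P * Q)ᵀ * F * (P * Q)) * B) * P := by
      simp only [Matrix.transpose_mul, Matrix.mul_assoc]
    rw [e1, hPQ, Matrix.transpose_one, Matrix.one_mul, Matrix.mul_one, hF]
    simp only [Matrix.mul_smul, Matrix.smul_mul]) r (fun i => Q *ᵥ z i) (by
    intro i
    rw [Matrix.mulVec_mulVec, Matrix.mul_assoc, hPQ, Matrix.mul_one, ← Matrix.mulVec_mulVec, hz,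
      Matrix.mulVec_smul])
  have h2 : (Matrix.of fun i j => (Q *ᵥ z i) ⬝ᵥ ((Pᵀ * F * P) *ᵥ (Q *ᵥ z j)))
      = (Matrix.of fun i j => z i ⬝ᵥ (F *ᵥ z j)) := by
    ext i j
    rw [Matrix.of_apply, Matrix.of_apply, Matrix.mulVec_mulVec, Matrix.mul_assoc, hPQ,
      Matrix.mul_one, ← Matrix.mulVec_mulVec, Matrix.dotProduct_mulVec, Matrix.vecMul_transpose,
      Matrix.mulVec_mulVec, hPQ, Matrix.one_mulVec]
  rw [h2] at h1
  have h3 := finrank_E0 (μ := μ) hR hc
  omega

open Classical in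
theorem Ad.alg_eq {B : Matrix ι ι K} (h : Ad B s α) (μ : K) :
    alg B μ = (Finset.univ.filter fun i => α i = μ).card := by
  obtain ⟨P, Q, N, E, hPQ, hR, hc, hn, hB⟩ := h.coord
  have hQP : Q * P = 1 := mul_eq_one_comm.mp hPQ
  have h1 : alg B μ = alg (Q * B * P) μ := by
    unfold alg
    rw [Matrix.mul_assoc, Matrix.charpoly_mul_comm, Matrix.mul_assoc, hPQ, Matrix.mul_one]
  obtain ⟨Z, hZ, hNZ, hZc⟩ := exp_sub_one N hn
  have e1 : IsNilpotent.exp N = 1 + N * Z := by rw [← hNZ]; abel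
  have c1 : Commute (Matrix.diagonal α) Z := hZc _ hc
  have c2 : Commute (Matrix.diagonal α) (N * Z) := hc.mul_right c1
  have c3 : Commute (Matrix.diagonal α) (IsNilpotent.exp N) := by
    rw [e1]
    exact (Commute.one_right _).add_right c2
  have c4 : Commute N Z := hZc N (Commute.refl N)
  have hB' : Commute (Matrix.diagonal α * IsNilpotent.exp N) (Matrix.diagonal α) :=
    (Commute.refl _).mul_left c3.symm
  have hD : IsNilpotent (Matrix.diagonal α * IsNilpotent.exp N - Matrix.diagonal α) := by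
    have e2 : Matrix.diagonal α * IsNilpotent.exp N - Matrix.diagonal α
        = Matrix.diagonal α * (IsNilpotent.exp N - 1) := by
      rw [mul_sub, mul_one]
    rw [e2, hNZ]
    apply c2.isNilpotent_mul_left
    exact c4.isNilpotent_mul_right hn
  rw [h1, hB]
  unfold alg
  rw [← Matrix.charpoly_toLin', ← LinearMap.finrank_maxGenEigenspace_eq, maxGen_eq hB' hD,
    finrank_supp]

end

end Pool.Agent.NL18
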